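import Mathlib

/-!
# Finite sets in general position with prescribed approximate positions
-/

set_option autoImplicit false

namespace Pool.Agent.TH750.Bal

open MeasureTheory

/-- no three distinct points of `X` lie on a line -/
def NoThreeCollinear (X : Finset (ℝ × ℝ)) : Prop :=
  ∀ p ∈ X, ∀ q ∈ X, ∀ r ∈ X, p ≠ q → p ≠ r → q ≠ r → ¬ Collinear ℝ ({p, q, r} : Set (ℝ × ℝ))

theorem line_ne_top (q r : ℝ × ℝ) : line[ℝ, q, r] ≠ ⊤ := by
  intro h
  have h1 : Collinear ℝ ({q, r} : Set (ℝ × ℝ)) := collinear_pair ℝ q r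
  have h2 := collinear_iff_finrank_le_one.1 h1
  have h3 : vectorSpan ℝ ({q, r} : Set (ℝ × ℝ)) = ⊤ := by
    rw [← direction_affineSpan, h, AffineSubspace.direction_top]
  rw [h3, finrank_top, Module.finrank_prod] at h2
  simp at h2

theorem exists_point (X : Finset (ℝ × ℝ)) (hX : NoThreeCollinear X) (U : Set (ℝ × ℝ))
    (hU : IsOpen U) (hne : U.Nonempty) :
    ∃ p ∈ U, p ∉ X ∧ NoThreeCollinear (insert p X) := by
  classical
  have hnull : volume (⋃ q ∈ X, ⋃ r ∈ X, (if q = r then ({q} : Set (ℝ × ℝ)) else
      (line[ℝ, q, r] : Set (ℝ × ℝ)))) = 0 := by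
    refine (measure_biUnion_null_iff X.countable_toSet).2 fun q _ => ?_
    refine (measure_biUnion_null_iff X.countable_toSet).2 fun r _ => ?_
    split_ifs
    · exact measure_singleton q
    · exact Measure.addHaar_affineSubspace volume _ (line_ne_top q r)
  have hpos : 0 < volume U := hU.measure_pos volume hne
  have hnot : ¬ U ⊆ (⋃ q ∈ X, ⋃ r ∈ X, (if q = r then ({q} : Set (ℝ × ℝ)) else
      (line[ℝ, q, r] : Set (ℝ × ℝ)))) := by
    intro hsub
    have := measure_mono (μ := volume) hsub
    rw [hnull] at this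
    exact absurd this (not_le.2 hpos)
  obtain ⟨p, hpU, hp⟩ := Set.not_subset.1 hnot
  have hpX : ∀ q ∈ X, p ≠ q := by
    intro q hq hpq
    apply hp
    simp only [Set.mem_iUnion]
    refine ⟨q, hq, q, hq, ?_⟩
    simp [hpq]
  have hline : ∀ q ∈ X, ∀ r ∈ X, q ≠ r → ¬ Collinear ℝ ({p, q, r} : Set (ℝ × ℝ)) := by
    intro q hq r hr hqr hc
    apply hp
    simp only [Set.mem_iUnion]
    refine ⟨q, hq, r, hr, ?_⟩
    rw [if_neg hqr]
    exact hc.mem_affineSpan_of_mem_of_ne (p₁ := q) (p₂ := r) (p₃ := p) (by simp) (by simp)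
      (by simp) hqr
  refine ⟨p, hpU, fun h => hpX p h rfl, ?_⟩
  intro x hx y hy z hz hxy hxz hyz
  rw [Finset.mem_insert] at hx hy hz
  rcases hx with rfl | hx
  · rcases hy with rfl | hy
    · exact absurd rfl hxy
    · rcases hz with rfl | hz
      · exact absurd rfl hxz
      · exact hline y hy z hz hyz
  · rcases hy with rfl | hy
    · rcases hz with rfl | hz
      · exact absurd rfl hyz
      · rw [Set.insert_comm]
        exact hline x hx z hz hxz
    · rcases hz with rfl | hz
      · have : ({x, y, z} : Set (ℝ × ℝ)) = {z, x, y} := by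
          ext t; simp only [Set.mem_insert_iff, Set.mem_singleton_iff]; tauto
        rw [this]
        exact hline x hx y hy hxy
      · exact hX x hx y hy z hz hxy hxz hyz

theorem exists_cluster (X : Finset (ℝ × ℝ)) (hX : NoThreeCollinear X) (U : Set (ℝ × ℝ))
    (hU : IsOpen U) (hne : U.Nonempty) (n : ℕ) :
    ∃ Y : Finset (ℝ × ℝ), Y.card = n ∧ (∀ y ∈ Y, y ∈ U) ∧ Disjoint X Y ∧
      NoThreeCollinear (X ∪ Y) := by
  classical
  induction n with
  | zero => exact ⟨∅, rfl, by simp, by simp, by simpa using hX⟩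
  | succ n ih =>
    obtain ⟨Y, h1, h2, h3, h4⟩ := ih
    obtain ⟨p, hpU, hp, hgp⟩ := exists_point (X ∪ Y) h4 U hU hne
    rw [Finset.mem_union, not_or] at hp
    refine ⟨insert p Y, ?_, ?_, ?_, ?_⟩
    · rw [Finset.card_insert_of_notMem hp.2, h1]
    · intro y hy
      rw [Finset.mem_insert] at hy
      rcases hy with rfl | hy
      · exact hpU
      · exact h2 y hy
    · rw [Finset.disjoint_insert_right]
      exact ⟨hp.1, h3⟩
    · rw [Finset.union_insert]
      exact hgp

theorem exists_family {ι : Type} [DecidableEq ι] (U : ι → Set (ℝ × ℝ)) (hU : ∀ c, IsOpen (U c))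
    (hne : ∀ c, (U c).Nonempty) (n : ι → ℕ) (s : Finset ι) :
    ∃ F : ι → Finset (ℝ × ℝ), (∀ c ∈ s, (F c).card = n c ∧ ∀ y ∈ F c, y ∈ U c) ∧
      (∀ c ∈ s, ∀ d ∈ s, c ≠ d → Disjoint (F c) (F d)) ∧ NoThreeCollinear (s.biUnion F) := by
  classical
  induction s using Finset.induction_on with
  | empty =>
    refine ⟨fun _ => ∅, by simp, by simp, ?_⟩
    intro p hp
    simp at hp
  | insert c s hc ih =>
    obtain ⟨F, h1, h2, h3⟩ := ih
    obtain ⟨Y, k1, k2, k3, k4⟩ := exists_cluster (s.biUnion F) h3 (U c) (hU c) (hne c) (n c)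
    have hF : ∀ d ∈ s, Function.update F c Y d = F d := by
      intro d hd
      have hdc : d ≠ c := by
        rintro rfl
        exact hc hd
      exact Function.update_of_ne hdc _ _
    have hYd : ∀ d ∈ s, Disjoint Y (F d) := by
      intro d hd
      exact (k3.mono_left (Finset.subset_biUnion_of_mem F hd)).symm
    refine ⟨Function.update F c Y, ?_, ?_, ?_⟩
    · intro d hd
      rw [Finset.mem_insert] at hd
      rcases hd with rfl | hd
      · rw [Function.update_self]
        exact ⟨k1, k2⟩
      · rw [hF d hd]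
        exact h1 d hd
    · intro d hd e he hde
      rw [Finset.mem_insert] at hd he
      rcases hd with rfl | hd
      · rcases he with rfl | he
        · exact absurd rfl hde
        · rw [Function.update_self, hF e he]
          exact hYd e he
      · rcases he with rfl | he
        · rw [Function.update_self, hF d hd]
          exact (hYd d hd).symm
        · rw [hF d hd, hF e he]
          exact h2 d hd e he hde
    · have : (insert c s).biUnion (Function.update F c Y) = s.biUnion F ∪ Y := by
        rw [Finset.biUnion_insert, Function.update_self, Finset.union_comm]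
        congr 1
        exact Finset.biUnion_congr rfl hF
      rw [this]
      exact k4

end Pool.Agent.TH750.Bal
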