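import Pool.Agent.TH750.BalGeo
import Pool.Agent.TH750.BalGP

/-!
# From a balanced partition to the finite check
-/

set_option autoImplicit false

namespace Pool.Agent.TH750.Bal

/-- sizes of the clusters -/
def sz (a b : ℕ) : Fin 8 → ℕ := ![10 * a, 10 * a, 10 * a, 9 * b, 4 * b, 9 * b, 4 * b, 4 * b]

/-- the red clusters -/
def redI : Finset (Fin 8) := {0, 1, 2}

/-- the blue clusters -/
def blueI : Finset (Fin 8) := {3, 4, 5, 6, 7}

theorem ite_has (U c n : ℕ) : (if has U c = true then n else 0) = n * (U / 2 ^ c % 2) := by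
  unfold has
  rcases Nat.mod_two_eq_zero_or_one (U / 2 ^ c) with h | h
  · rw [h]; simp [show Nat.beq 0 1 = false from rfl]
  · rw [h]; simp

theorem sum_red (a b U : ℕ) :
    ∑ c ∈ redI.filter (fun c : Fin 8 => has U c = true), sz a b c = a * wr U := by
  rw [Finset.sum_filter]
  simp only [ite_has, redI, sz, wr]
  rw [Finset.sum_insert (by decide), Finset.sum_insert (by decide), Finset.sum_singleton]
  simp
  ring

theorem sum_blue (a b U : ℕ) :
    ∑ c ∈ blueI.filter (fun c : Fin 8 => has U c = true), sz a b c = b * wb U := by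
  rw [Finset.sum_filter]
  simp only [ite_has, blueI, sz, wb]
  rw [Finset.sum_insert (by decide), Finset.sum_insert (by decide), Finset.sum_insert (by decide),
    Finset.sum_insert (by decide), Finset.sum_singleton]
  simp
  ring

theorem core (a b : ℕ) (ha : 0 < a) (hb : 0 < b) (F : Fin 8 → Finset (ℝ × ℝ))
    (hcard : ∀ c, (F c).card = sz a b c) (hnear : ∀ c, ∀ p ∈ F c, near p c)
    (hdisj : ∀ c d, c ≠ d → Disjoint (F c) (F d)) (P : Fin 4 → Finset (ℝ × ℝ))
    (hP : ∀ i j, i ≠ j → Disjoint (P i) (P j))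
    (hUn : Finset.univ.biUnion P = Finset.univ.biUnion F)
    (hull : ∀ i j, i ≠ j → Disjoint (convexHull ℝ (P i : Set (ℝ × ℝ)))
      (convexHull ℝ (P j : Set (ℝ × ℝ))))
    (hred : ∀ i, (P i ∩ redI.biUnion F).card = a * mm i)
    (hblue : ∀ i, (P i ∩ blueI.biUnion F).card = b * mm i) : False := by
  classical
  let S : Fin 4 → ℕ := fun i => Nat.ofBits (fun c : Fin 8 => decide (P i ∩ F c).Nonempty)
  have hlt : ∀ i, S i < 256 := fun i => Nat.ofBits_lt_two_pow _
  have hhas : ∀ i (c : Fin 8), has (S i) c = true ↔ (P i ∩ F c).Nonempty := by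
    intro i c
    rw [has_eq, Nat.testBit_ofBits_lt _ _ c.2]
    simp
  have hhas_ge : ∀ i c, 8 ≤ c → has (S i) c = false := by
    intro i c hc
    rw [has_eq, Nat.testBit_ofBits_ge _ _ hc]
  have htouch : ∀ i c, has (S i) c = true → ∃ p ∈ (P i : Set (ℝ × ℝ)), near p c := by
    intro i c h
    by_cases hc : c < 8
    · obtain ⟨p, hp⟩ := (hhas i ⟨c, hc⟩).1 h
      rw [Finset.mem_inter] at hp
      exact ⟨p, Finset.mem_coe.2 hp.1, hnear ⟨c, hc⟩ p hp.2⟩
    · rw [hhas_ge i c (not_lt.1 hc)] at h
      exact absurd h (by decide)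
  have hpos : ∀ c, 0 < (F c).card := by
    intro c
    rw [hcard]
    fin_cases c <;> simp [sz] <;> omega
  refine no_masks S hlt ?_ ?_ ?_
  · -- closedness
    intro i
    unfold closed
    rw [List.all_eq_true]
    intro q hq
    obtain ⟨k1, k2, k3, l1, l2, l3, l4⟩ := tris_ok q hq
    rw [Bool.or_eq_true]
    by_cases hall : (has (S i) q.1 && has (S i) q.2.1 && has (S i) q.2.2.1) = true
    · right
      simp only [Bool.and_eq_true] at hall
      obtain ⟨⟨h1, h2⟩, h3⟩ := hall
      obtain ⟨p1, hp1, n1⟩ := htouch _ _ h1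
      obtain ⟨p2, hp2, n2⟩ := htouch _ _ h2
      obtain ⟨p3, hp3, n3⟩ := htouch _ _ h3
      obtain ⟨z, hz⟩ := Finset.card_pos.1 (hpos ⟨q.2.2.2, l4⟩)
      have nz : near z q.2.2.2 := hnear _ z hz
      have hzh : z ∈ convexHull ℝ (P i : Set (ℝ × ℝ)) :=
        mem_tri hp1 hp2 hp3 (orient_pos k1 n1 n2 nz) (orient_pos k2 n2 n3 nz)
          (orient_pos k3 n3 n1 nz)
      have hzU : z ∈ Finset.univ.biUnion P := by
        rw [hUn, Finset.mem_biUnion]
        exact ⟨_, Finset.mem_univ _, hz⟩
      rw [Finset.mem_biUnion] at hzU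
      obtain ⟨j, -, hj⟩ := hzU
      have hji : j = i := by
        by_contra hne
        exact Set.disjoint_left.1 (hull j i hne) (subset_convexHull ℝ _ (Finset.mem_coe.2 hj)) hzh
      subst hji
      exact (hhas j ⟨q.2.2.2, l4⟩).2 ⟨z, Finset.mem_inter.2 ⟨hj, hz⟩⟩
    · left
      rw [Bool.not_eq_true] at hall
      rw [hall]
      rfl
  · -- compatibility
    intro i j hij
    exact bad_false (hull i j hij) (htouch i) (htouch j)
  · -- counting
    intro T U hTU
    have hcount : ∀ (I : Finset (Fin 8)), (∑ i ∈ T, (P i ∩ I.biUnion F).card) ≤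
        ∑ c ∈ I.filter (fun c : Fin 8 => has U c = true), sz a b c := by
      intro I
      have e1 : ∑ i ∈ T, (P i ∩ I.biUnion F).card = (T.biUnion fun i => P i ∩ I.biUnion F).card := by
        rw [Finset.card_biUnion]
        intro i _ j _ hij
        exact (hP i j hij).mono Finset.inter_subset_left Finset.inter_subset_left
      have e2 : ∑ c ∈ I.filter (fun c : Fin 8 => has U c = true), sz a b c =
          ((I.filter (fun c : Fin 8 => has U c = true)).biUnion F).card := by
        rw [Finset.card_biUnion (fun c _ d _ hcd => hdisj c d hcd)]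
        exact Finset.sum_congr rfl fun c _ => (hcard c).symm
      rw [e1, e2]
      apply Finset.card_le_card
      intro x hx
      rw [Finset.mem_biUnion] at hx
      obtain ⟨i, hi, hx⟩ := hx
      rw [Finset.mem_inter, Finset.mem_biUnion] at hx
      obtain ⟨hxi, c, hc, hxc⟩ := hx
      rw [Finset.mem_biUnion]
      refine ⟨c, Finset.mem_filter.2 ⟨hc, ?_⟩, hxc⟩
      exact hTU i hi c c.2 ((hhas i c).2 ⟨x, Finset.mem_inter.2 ⟨hxi, hxc⟩⟩)
    have hr := hcount redI
    have hbl := hcount blueI
    rw [sum_red] at hr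
    rw [sum_blue] at hbl
    rw [Finset.sum_congr rfl (fun i _ => hred i), ← Finset.mul_sum] at hr
    rw [Finset.sum_congr rfl (fun i _ => hblue i), ← Finset.mul_sum] at hbl
    unfold Bal.hall
    rw [Bool.and_eq_true, Nat.ble_eq, Nat.ble_eq]
    exact ⟨Nat.le_of_mul_le_mul_left hr ha, Nat.le_of_mul_le_mul_left hbl hb⟩

/-- the small open square around the centre of a cluster -/
def sq (c : Fin 8) : Set (ℝ × ℝ) := {p | near p c}

theorem sq_open (c : Fin 8) : IsOpen (sq c) := by
  have h1 : Continuous fun p : ℝ × ℝ => |p.1 - (cx c : ℝ)| := by fun_prop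
  have h2 : Continuous fun p : ℝ × ℝ => |p.2 - (cy c : ℝ)| := by fun_prop
  exact (isOpen_lt h1 continuous_const).inter (isOpen_lt h2 continuous_const)

theorem sq_nonempty (c : Fin 8) : (sq c).Nonempty :=
  ⟨((cx c : ℝ), (cy c : ℝ)), by simp [sq, near]⟩

/-- **The counterexample.** -/
theorem main (a b : ℕ) (ha : 0 < a) (hb : 0 < b) :
    ∃ R B : Finset (ℝ × ℝ), Disjoint R B ∧ R.card = 30 * a ∧ B.card = 30 * b ∧
      NoThreeCollinear (R ∪ B) ∧
      ∀ P : Fin 4 → Finset (ℝ × ℝ), (∀ i j, i ≠ j → Disjoint (P i) (P j)) →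
        Finset.univ.biUnion P = R ∪ B →
        (∀ i j, i ≠ j → Disjoint (convexHull ℝ (P i : Set (ℝ × ℝ)))
          (convexHull ℝ (P j : Set (ℝ × ℝ)))) →
        (∀ i, (P i ∩ R).card = a * mm i) → (∀ i, (P i ∩ B).card = b * mm i) → False := by
  classical
  obtain ⟨F, h1, h2, h3⟩ := exists_family sq sq_open sq_nonempty (sz a b) Finset.univ
  have hdisj : ∀ c d, c ≠ d → Disjoint (F c) (F d) :=
    fun c d hcd => h2 c (Finset.mem_univ _) d (Finset.mem_univ _) hcd
  have hcard : ∀ c, (F c).card = sz a b c := fun c => (h1 c (Finset.mem_univ _)).1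
  have hnear : ∀ c, ∀ p ∈ F c, near p c := fun c => (h1 c (Finset.mem_univ _)).2
  have hun : redI.biUnion F ∪ blueI.biUnion F = Finset.univ.biUnion F := by
    have huniv : (Finset.univ : Finset (Fin 8)) = redI ∪ blueI := by decide
    rw [huniv, Finset.union_biUnion]
  refine ⟨redI.biUnion F, blueI.biUnion F, ?_, ?_, ?_, ?_, ?_⟩
  · rw [Finset.disjoint_biUnion_left]
    intro c hc
    rw [Finset.disjoint_biUnion_right]
    intro d hd
    apply hdisj
    rintro rfl
    revert hc hd
    revert c
    decide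
  · rw [Finset.card_biUnion (fun c _ d _ hcd => hdisj c d hcd),
      Finset.sum_congr rfl (fun c _ => hcard c)]
    simp only [redI, sz]
    rw [Finset.sum_insert (by decide), Finset.sum_insert (by decide), Finset.sum_singleton]
    simp
    ring
  · rw [Finset.card_biUnion (fun c _ d _ hcd => hdisj c d hcd),
      Finset.sum_congr rfl (fun c _ => hcard c)]
    simp only [blueI, sz]
    rw [Finset.sum_insert (by decide), Finset.sum_insert (by decide),
      Finset.sum_insert (by decide), Finset.sum_insert (by decide), Finset.sum_singleton]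
    simp
    ring
  · rw [hun]
    exact h3
  · intro P hP hU hull hred hblue
    exact core a b ha hb F hcard hnear hdisj P hP (hU.trans hun) hull hred hblue

end Pool.Agent.TH750.Bal
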