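import Pool.Agent.TH750.BalData

/-!
# The finite check, evaluated by the kernel
-/

set_option autoImplicit false
set_option maxRecDepth 100000

namespace Pool.Agent.TH750.Bal

/-- last level: the small cell -/
def d3 (S0 S1 S2 : ℕ) (l : List (ℕ × ℕ × ℕ × ℕ)) : Bool :=
  l.all fun z => !(hall (Nat.lor z.1 S0) 12 && (hall (Nat.lor z.1 S1) 12 &&
    (hall (Nat.lor z.1 S2) 12 && (hall (Nat.lor z.1 (Nat.lor S0 S1)) 21 &&
    (hall (Nat.lor z.1 (Nat.lor S0 S2)) 21 && (hall (Nat.lor z.1 (Nat.lor S1 S2)) 21 &&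
    hall (Nat.lor z.1 (Nat.lor S0 (Nat.lor S1 S2))) 30))))))

/-- third big cell -/
def d2 (S0 S1 : ℕ) (lb ls : List (ℕ × ℕ × ℕ × ℕ)) : Bool :=
  lb.all fun z => !(hall (Nat.lor z.1 S0) 18 && (hall (Nat.lor z.1 S1) 18 &&
    hall (Nat.lor z.1 (Nat.lor S0 S1)) 27)) || d3 S0 S1 z.1 (ls.filter (comp z))

/-- second big cell -/
def d1 (S0 : ℕ) (lb ls : List (ℕ × ℕ × ℕ × ℕ)) : Bool :=
  lb.all fun z => !(hall (Nat.lor z.1 S0) 18) ||
    d2 S0 z.1 (lb.filter (comp z)) (ls.filter (comp z))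

/-- first big cell -/
def d0 (lb ls : List (ℕ × ℕ × ℕ × ℕ)) : Bool :=
  lb.all fun z => d1 z.1 (lb.filter (comp z)) (ls.filter (comp z))

/-- the records with enough weight for a big cell -/
def big : List (ℕ × ℕ × ℕ × ℕ) := recs.filter fun z => hall z.1 9

theorem check_true : d0 big recs = true := by
  decide +kernel

theorem complete_true :
    ((List.range 256).all fun S => !(closed S) || (!(hall S 3) ||
      recs.any fun x => Nat.beq x.1 S)) = true := by
  decide +kernel

theorem sound_true :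
    (recs.all fun x => recs.all fun y => comp x y || bad x.1 y.1) = true := by
  decide +kernel

end Pool.Agent.TH750.Bal
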