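import Mathlib

/-!
# A finite check

Eight clusters with index `0,…,7` sit at the points
`(-1,-1), (1,-2), (2,1)` (red, 10 units each) and
`(-1,0), (1,-9), (2,6), (6,3), (-4,2)` (blue, with 9, 4, 9, 4, 4 units).
A set of clusters is coded by a natural number below 256 (bit `c` for cluster `c`).
`tris` lists the quadruples `(u,v,w,c)` for which `c` lies in the (counterclockwise) triangle `uvw`,
`crs` the quadruples `(a,b,c,d)` for which the segments `ab` and `cd` cross.
-/

set_option autoImplicit false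

namespace Pool.Agent.TH750.Bal

/-- centres of the clusters -/
def cx : ℕ → ℤ
  | 0 => -1
  | 1 => 1
  | 2 => 2
  | 3 => -1
  | 4 => 1
  | 5 => 2
  | 6 => 6
  | 7 => -4
  | _ => 0

/-- centres of the clusters -/
def cy : ℕ → ℤ
  | 0 => -1
  | 1 => -2
  | 2 => 1
  | 3 => 0
  | 4 => -9
  | 5 => 6
  | 6 => 3
  | 7 => 2
  | _ => 0

/-- orientation of the centres of three clusters -/
def oZ (a b c : ℕ) : ℤ := (cx b - cx a) * (cy c - cy a) - (cy b - cy a) * (cx c - cx a)

/-- `(u,v,w,c)`: the cluster `c` lies inside the counterclockwise triangle `u v w` -/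
def tris : List (ℕ × ℕ × ℕ × ℕ) := [
   (0,4,2,1), (0,2,7,3), (0,6,3,2), (0,4,5,1), (0,4,6,1), (0,6,5,2),
   (0,5,7,3), (0,6,7,2), (0,6,7,3), (1,2,7,3), (1,6,3,2), (1,7,4,0),
   (1,6,5,2), (1,5,7,3), (1,6,7,2), (1,6,7,3), (2,3,4,1), (2,7,4,0),
   (2,7,4,1), (2,7,4,3), (3,4,5,1), (3,4,6,1), (3,4,6,2), (3,7,4,0),
   (4,6,5,2), (4,5,7,0), (4,5,7,1), (4,5,7,3), (4,6,7,0), (4,6,7,1),
   (4,6,7,2), (4,6,7,3)]

/-- `(a,b,c,d)`: the segments `a b` and `c d` cross -/
def crs : List (ℕ × ℕ × ℕ × ℕ) := [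
   (0,1,3,4), (0,2,3,1), (0,2,5,1), (0,2,7,1), (0,2,3,4), (0,2,5,4),
   (0,3,7,1), (0,5,3,1), (0,5,7,1), (0,5,3,2), (0,5,7,2), (0,5,3,4),
   (0,5,3,6), (0,5,7,6), (0,6,2,1), (0,6,3,1), (0,6,5,1), (0,6,7,1),
   (0,6,2,4), (0,6,3,4), (0,6,5,4), (1,2,5,4), (1,5,3,2), (1,5,7,2),
   (1,5,3,6), (1,5,7,6), (1,6,2,4), (1,6,5,4), (1,7,4,3), (2,3,4,5),
   (2,5,3,6), (2,5,7,6), (2,7,3,5), (2,7,3,6), (2,7,4,5), (3,5,7,6),
   (3,6,5,4), (4,5,7,6)]

/-- all triples of clusters, oriented counterclockwise -/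
def trips : List (ℕ × ℕ × ℕ) := [
   (0,1,2), (0,1,3), (0,4,1), (0,1,5), (0,1,6), (0,1,7), (0,2,3), (0,4,2),
   (0,2,5), (0,6,2), (0,2,7), (0,4,3), (0,5,3), (0,6,3), (0,3,7), (0,4,5),
   (0,4,6), (0,7,4), (0,6,5), (0,5,7), (0,6,7), (1,2,3), (1,4,2), (1,2,5),
   (1,6,2), (1,2,7), (1,3,4), (1,5,3), (1,6,3), (1,3,7), (1,4,5), (1,4,6),
   (1,7,4), (1,6,5), (1,5,7), (1,6,7), (2,3,4), (2,5,3), (2,6,3), (2,7,3),
   (2,5,4), (2,4,6), (2,7,4), (2,6,5), (2,5,7), (2,6,7), (3,4,5), (3,4,6),
   (3,7,4), (3,6,5), (3,5,7), (3,6,7), (4,6,5), (4,5,7), (4,6,7), (5,7,6)]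

/-- closed sets of clusters with enough red and blue: `(S, interior, segments, crossed segments)` -/
def recs : List (ℕ × ℕ × ℕ × ℕ) := [
   (9,0,4,4096), (10,0,256,50), (11,0,261,266290), (12,0,8192,4195344),
   (13,0,8198,4461840), (14,0,8576,4195378), (15,0,8583,4461874), (17,0,8,0),
   (18,0,512,0), (19,0,521,262144), (20,0,16384,2080), (22,0,17024,4196384),
   (23,2,17035,4463904), (25,0,262156,4147), (26,0,262912,4147), (27,0,262925,266291),
   (30,2,287616,4201523), (31,2,287631,4463923), (33,0,16,135672064), (34,0,1024,135405602),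
   (35,0,1041,135672098), (36,0,32768,135266304), (37,0,32786,139867392), (38,0,33920,139599906),
   (39,0,33939,139867426), (41,0,524308,135672064), (42,0,525568,135405618), (43,0,525589,135672114),
   (44,0,565248,139592720), (45,0,565270,139867408), (46,0,566656,139600946), (47,0,566679,139867442),
   (50,0,4195840,135407778), (51,2,4195865,135674274), (52,0,4243456,135407778), (54,0,4245120,139602082),
   (55,2,4245147,139869602), (58,2,4982528,135411891), (59,2,4982557,135674291), (62,2,5040000,139607219),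
   (63,2,5040031,139869619), (65,0,32,4478336), (66,0,2048,4210688), (67,0,2081,4478336),
   (68,0,65536,0), (69,0,65570,4478336), (70,0,67712,4210720), (71,0,67747,4478368),
   (76,0,1122304,4359184), (77,4,1122342,4642192), (78,4,1124736,4375602), (79,4,1124775,4642226),
   (82,0,8391168,4210688), (83,2,8391209,4478336), (84,0,8470528,2080), (86,0,8473216,4212768),
   (87,2,8473259,4480416), (94,6,9792384,4381747), (95,6,9792431,4644275), (100,0,33652736,135266304),
   (101,4,33652786,139883904), (102,4,33655936,139616290), (103,4,33655987,139883938), (108,0,35233792,139625488),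
   (109,4,35233846,139916688), (110,4,35237248,139650098), (111,4,35237303,139916722), (116,4,46252032,135407778),
   (118,4,46255744,139618466), (119,6,46255803,139885986), (126,6,48099200,139656371), (127,6,48099263,139918771),
   (129,0,64,0), (130,0,4096,262198), (131,0,4161,262198), (132,0,131072,5768208),
   (137,0,2097220,4096), (138,0,2101504,262198), (139,0,2101573,266294), (140,0,2236416,5768208),
   (141,8,2236486,6034704), (142,8,2240896,6030390), (143,8,2240967,6034742), (145,0,16777288,0),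
   (147,1,16781897,262198), (153,1,19136588,4147), (155,1,19141453,266295), (159,11,19297231,6036791),
   (164,0,67272704,139985936), (169,8,69730388,135672064), (170,8,69735680,135667766), (171,8,69735765,135672118),
   (172,0,69902336,140117008), (173,8,69902422,140391696), (174,8,69907840,140387382), (175,8,69907927,140391734),
   (187,11,90969949,135674295), (191,11,91158495,140393911), (196,0,134414336,5800976), (204,0,137568256,5932048),
   (205,12,137568358,6215056), (206,12,137574784,6210614), (207,12,137574887,6215094), (223,15,163019759,6217143),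
   (228,0,235110400,140018704), (236,0,238788608,140149776), (237,12,238788726,140440976), (238,12,238796160,140436534),
   (239,12,238796279,140441014), (255,15,268435455,140443063)]

/-- red weight of a set of clusters -/
def wr (S : ℕ) : ℕ := 10 * (S % 2 + S / 2 % 2 + S / 4 % 2)

/-- blue weight of a set of clusters -/
def wb (S : ℕ) : ℕ :=
  9 * (S / 8 % 2) + 4 * (S / 16 % 2) + 9 * (S / 32 % 2) + 4 * (S / 64 % 2) + 4 * (S / 128 % 2)

/-- the set of clusters `S` has at least `need` red and `need` blue units -/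
def hall (S need : ℕ) : Bool := Nat.ble need (wr S) && Nat.ble need (wb S)

/-- `S` contains the cluster `c` -/
def has (S c : ℕ) : Bool := Nat.beq ((S / 2 ^ c) % 2) 1

/-- quick compatibility test of two records -/
def comp (x y : ℕ × ℕ × ℕ × ℕ) : Bool :=
  Nat.beq (Nat.land (Nat.land (Nat.land x.1 y.1) (Nat.land x.1 y.1 - 1))
    (Nat.land (Nat.land x.1 y.1) (Nat.land x.1 y.1 - 1) - 1)) 0 &&
  (Nat.beq (Nat.land x.2.1 y.1) 0 && (Nat.beq (Nat.land y.2.1 x.1) 0 &&
    Nat.beq (Nat.land x.2.2.2 y.2.2.1) 0))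

/-- a visible reason for two sets of clusters not to be compatible -/
def bad (S T : ℕ) : Bool :=
  (crs.any fun q => has S q.1 && has S q.2.1 && has T q.2.2.1 && has T q.2.2.2) ||
  ((crs.any fun q => has T q.1 && has T q.2.1 && has S q.2.2.1 && has S q.2.2.2) ||
  ((tris.any fun q => has S q.1 && has S q.2.1 && has S q.2.2.1 && has T q.2.2.2) ||
  ((tris.any fun q => has T q.1 && has T q.2.1 && has T q.2.2.1 && has S q.2.2.2) ||
  (trips.any fun q => has S q.1 && has S q.2.1 && has S q.2.2 &&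
    (has T q.1 && has T q.2.1 && has T q.2.2)))))

/-- `S` contains every cluster inside a triangle of clusters of `S` -/
def closed (S : ℕ) : Bool :=
  tris.all fun q => !(has S q.1 && has S q.2.1 && has S q.2.2.1) || has S q.2.2.2

theorem tris_ok : ∀ q ∈ tris, 0 < oZ q.1 q.2.1 q.2.2.2 ∧ 0 < oZ q.2.1 q.2.2.1 q.2.2.2 ∧
    0 < oZ q.2.2.1 q.1 q.2.2.2 ∧ q.1 < 8 ∧ q.2.1 < 8 ∧ q.2.2.1 < 8 ∧ q.2.2.2 < 8 := by
  decide

theorem crs_ok : ∀ q ∈ crs, 0 < oZ q.1 q.2.1 q.2.2.1 ∧ oZ q.1 q.2.1 q.2.2.2 < 0 ∧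
    oZ q.2.2.1 q.2.2.2 q.1 < 0 ∧ 0 < oZ q.2.2.1 q.2.2.2 q.2.1 ∧
    q.1 < 8 ∧ q.2.1 < 8 ∧ q.2.2.1 < 8 ∧ q.2.2.2 < 8 := by
  decide

theorem trips_ok : ∀ q ∈ trips, 0 < oZ q.1 q.2.1 q.2.2 ∧ q.1 < 8 ∧ q.2.1 < 8 ∧ q.2.2 < 8 := by
  decide

end Pool.Agent.TH750.Bal
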