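import Pool.Agent.TH750.BalSpec

/-!
# Plane geometry of the clusters
-/

set_option autoImplicit false

namespace Pool.Agent.TH750.Bal

/-- twice the signed area of the triangle `p q r` -/
def orient (p q r : ℝ × ℝ) : ℝ := (q.1 - p.1) * (r.2 - p.2) - (q.2 - p.2) * (r.1 - p.1)

/-- `p` lies in the small open square around the centre of the cluster `c` -/
def near (p : ℝ × ℝ) (c : ℕ) : Prop := |p.1 - cx c| < 1 / 1000 ∧ |p.2 - cy c| < 1 / 1000

theorem cx_le (c : ℕ) : |(cx c : ℝ)| ≤ 9 := by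
  unfold cx; split <;> norm_num

theorem cy_le (c : ℕ) : |(cy c : ℝ)| ≤ 9 := by
  unfold cy; split <;> norm_num

theorem prod_bound {a b A B : ℝ} (ha : |a| ≤ A) (hb : |b| ≤ B) : |a * b| ≤ A * B := by
  rw [abs_mul]
  exact mul_le_mul ha hb (abs_nonneg _) (le_trans (abs_nonneg _) ha)

theorem orient_err {p q r p0 q0 r0 : ℝ × ℝ} (hp1 : |p.1 - p0.1| ≤ 1 / 1000)
    (hp2 : |p.2 - p0.2| ≤ 1 / 1000) (hq1 : |q.1 - q0.1| ≤ 1 / 1000) (hq2 : |q.2 - q0.2| ≤ 1 / 1000)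
    (hr1 : |r.1 - r0.1| ≤ 1 / 1000) (hr2 : |r.2 - r0.2| ≤ 1 / 1000)
    (bp1 : |p0.1| ≤ 9) (bp2 : |p0.2| ≤ 9) (bq1 : |q0.1| ≤ 9) (bq2 : |q0.2| ≤ 9)
    (br1 : |r0.1| ≤ 9) (br2 : |r0.2| ≤ 9) : |orient p q r - orient p0 q0 r0| ≤ 1 / 5 := by
  rw [abs_le] at hp1 hp2 hq1 hq2 hr1 hr2 bp1 bp2 bq1 bq2 br1 br2
  have e1 : |(q.1 - q0.1) - (p.1 - p0.1)| ≤ 1 / 500 := by rw [abs_le]; constructor <;> linarith [hp1.1, hp1.2, hq1.1, hq1.2]
  have e2 : |(q.2 - q0.2) - (p.2 - p0.2)| ≤ 1 / 500 := by rw [abs_le]; constructor <;> linarith [hp2.1, hp2.2, hq2.1, hq2.2]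
  have e3 : |(r.1 - r0.1) - (p.1 - p0.1)| ≤ 1 / 500 := by rw [abs_le]; constructor <;> linarith [hp1.1, hp1.2, hr1.1, hr1.2]
  have e4 : |(r.2 - r0.2) - (p.2 - p0.2)| ≤ 1 / 500 := by rw [abs_le]; constructor <;> linarith [hp2.1, hp2.2, hr2.1, hr2.2]
  have d1 : |q0.1 - p0.1| ≤ 18 := by rw [abs_le]; constructor <;> linarith [bp1.1, bp1.2, bq1.1, bq1.2]
  have d2 : |q0.2 - p0.2| ≤ 18 := by rw [abs_le]; constructor <;> linarith [bp2.1, bp2.2, bq2.1, bq2.2]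
  have d3 : |r0.1 - p0.1| ≤ 18 := by rw [abs_le]; constructor <;> linarith [bp1.1, bp1.2, br1.1, br1.2]
  have d4 : |r0.2 - p0.2| ≤ 18 := by rw [abs_le]; constructor <;> linarith [bp2.1, bp2.2, br2.1, br2.2]
  have t1 := abs_le.1 (prod_bound d1 e4)
  have t2 := abs_le.1 (prod_bound e1 d4)
  have t3 := abs_le.1 (prod_bound e1 e4)
  have t4 := abs_le.1 (prod_bound d2 e3)
  have t5 := abs_le.1 (prod_bound e2 d3)
  have t6 := abs_le.1 (prod_bound e2 e3)
  have key : orient p q r - orient p0 q0 r0 =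
      (q0.1 - p0.1) * ((r.2 - r0.2) - (p.2 - p0.2)) + ((q.1 - q0.1) - (p.1 - p0.1)) * (r0.2 - p0.2)
      + ((q.1 - q0.1) - (p.1 - p0.1)) * ((r.2 - r0.2) - (p.2 - p0.2))
      - (q0.2 - p0.2) * ((r.1 - r0.1) - (p.1 - p0.1)) - ((q.2 - q0.2) - (p.2 - p0.2)) * (r0.1 - p0.1)
      - ((q.2 - q0.2) - (p.2 - p0.2)) * ((r.1 - r0.1) - (p.1 - p0.1)) := by
    unfold orient; ring
  rw [key, abs_le]
  constructor <;> linarith [t1.1, t1.2, t2.1, t2.2, t3.1, t3.2, t4.1, t4.2, t5.1, t5.2, t6.1, t6.2]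

theorem oZ_cast (a b c : ℕ) : orient ((cx a : ℝ), (cy a : ℝ)) ((cx b : ℝ), (cy b : ℝ))
    ((cx c : ℝ), (cy c : ℝ)) = (oZ a b c : ℝ) := by
  unfold orient oZ
  push_cast
  ring

theorem orient_pos {a b c : ℕ} (h : 0 < oZ a b c) {p q r : ℝ × ℝ} (hp : near p a) (hq : near q b)
    (hr : near r c) : 0 < orient p q r := by
  have h1 := orient_err (p0 := ((cx a : ℝ), (cy a : ℝ))) (q0 := ((cx b : ℝ), (cy b : ℝ)))
    (r0 := ((cx c : ℝ), (cy c : ℝ))) hp.1.le hp.2.le hq.1.le hq.2.le hr.1.le hr.2.le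
    (cx_le a) (cy_le a) (cx_le b) (cy_le b) (cx_le c) (cy_le c)
  rw [oZ_cast, abs_le] at h1
  have h2 : (1 : ℝ) ≤ (oZ a b c : ℝ) := by exact_mod_cast h
  linarith [h1.1]

theorem orient_neg {a b c : ℕ} (h : oZ a b c < 0) {p q r : ℝ × ℝ} (hp : near p a) (hq : near q b)
    (hr : near r c) : orient p q r < 0 := by
  have h1 := orient_err (p0 := ((cx a : ℝ), (cy a : ℝ))) (q0 := ((cx b : ℝ), (cy b : ℝ)))
    (r0 := ((cx c : ℝ), (cy c : ℝ))) hp.1.le hp.2.le hq.1.le hq.2.le hr.1.le hr.2.le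
    (cx_le a) (cy_le a) (cx_le b) (cy_le b) (cx_le c) (cy_le c)
  rw [oZ_cast, abs_le] at h1
  have h2 : (oZ a b c : ℝ) ≤ -1 := by
    have : oZ a b c ≤ -1 := by omega
    exact_mod_cast this
  linarith [h1.2]

/-- a convex combination of three points of `A` -/
theorem comb3 {A : Set (ℝ × ℝ)} {p q s : ℝ × ℝ} (hp : p ∈ A) (hq : q ∈ A) (hs : s ∈ A)
    {α β γ : ℝ} (hα : 0 ≤ α) (hβ : 0 ≤ β) (hγ : 0 ≤ γ) (h : α + β + γ = 1) :
    α • p + β • q + γ • s ∈ convexHull ℝ A := by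
  have hA := convex_convexHull ℝ A
  have hp' := subset_convexHull ℝ A hp
  have hq' := subset_convexHull ℝ A hq
  have hs' := subset_convexHull ℝ A hs
  have := hA.sum_mem (t := Finset.univ) (w := ![α, β, γ]) (z := ![p, q, s]) (by
    intro i _
    fin_cases i <;> simp [hα, hβ, hγ]) (by
    simp [Fin.sum_univ_succ]; linarith) (by
    intro i _
    fin_cases i <;> simp [hp', hq', hs'])
  simpa [Fin.sum_univ_succ, add_assoc] using this

theorem mem_tri {A : Set (ℝ × ℝ)} {p q s r : ℝ × ℝ} (hp : p ∈ A) (hq : q ∈ A) (hs : s ∈ A)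
    (h1 : 0 < orient p q r) (h2 : 0 < orient q s r) (h3 : 0 < orient s p r) :
    r ∈ convexHull ℝ A := by
  have hD : 0 < orient p q r + orient q s r + orient s p r := by linarith
  have := comb3 hp hq hs (α := orient q s r / (orient p q r + orient q s r + orient s p r))
    (β := orient s p r / (orient p q r + orient q s r + orient s p r))
    (γ := orient p q r / (orient p q r + orient q s r + orient s p r))
    (div_nonneg h2.le hD.le) (div_nonneg h3.le hD.le) (div_nonneg h1.le hD.le) (by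
      field_simp; ring)
  convert this using 1
  ext
  · simp only [Prod.fst_add, Prod.smul_fst, smul_eq_mul]
    field_simp
    unfold orient
    ring
  · simp only [Prod.snd_add, Prod.smul_snd, smul_eq_mul]
    field_simp
    unfold orient
    ring

theorem comb2 {A : Set (ℝ × ℝ)} {p q : ℝ × ℝ} (hp : p ∈ A) (hq : q ∈ A)
    {α β : ℝ} (hα : 0 ≤ α) (hβ : 0 ≤ β) (h : α + β = 1) : α • p + β • q ∈ convexHull ℝ A :=
  (convex_convexHull ℝ A) (subset_convexHull ℝ A hp) (subset_convexHull ℝ A hq) hα hβ h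

theorem cross_inter {A B : Set (ℝ × ℝ)} {a b c d : ℝ × ℝ} (ha : a ∈ A) (hb : b ∈ A) (hc : c ∈ B)
    (hd : d ∈ B) (h1 : 0 < orient a b c) (h2 : orient a b d < 0) (h3 : orient c d a < 0)
    (h4 : 0 < orient c d b) : ¬ Disjoint (convexHull ℝ A) (convexHull ℝ B) := by
  have hD : 0 < orient c d b - orient c d a := by linarith
  have hE : 0 < orient a b c - orient a b d := by linarith
  have m1 := comb2 ha hb (α := orient c d b / (orient c d b - orient c d a))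
    (β := -orient c d a / (orient c d b - orient c d a)) (div_nonneg h4.le hD.le)
    (div_nonneg (by linarith) hD.le) (by field_simp; ring)
  have m2 := comb2 hc hd (α := -orient a b d / (orient a b c - orient a b d))
    (β := orient a b c / (orient a b c - orient a b d)) (div_nonneg (by linarith) hE.le)
    (div_nonneg h1.le hE.le) (by field_simp; ring)
  have heq : (orient c d b / (orient c d b - orient c d a)) • a +
      (-orient c d a / (orient c d b - orient c d a)) • b =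
      (-orient a b d / (orient a b c - orient a b d)) • c +
      (orient a b c / (orient a b c - orient a b d)) • d := by
    have hDE : orient c d b - orient c d a = orient a b c - orient a b d := by
      unfold orient; ring
    rw [hDE]
    ext
    · simp only [Prod.fst_add, Prod.smul_fst, smul_eq_mul]
      field_simp
      unfold orient
      ring
    · simp only [Prod.snd_add, Prod.smul_snd, smul_eq_mul]
      field_simp
      unfold orient
      ring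
  rw [heq] at m1
  exact fun hdis => Set.disjoint_left.1 hdis m1 m2

/-- the centroid of three clusters lies in the hull of any set meeting all three -/
theorem centroid_mem {A : Set (ℝ × ℝ)} {u v w : ℕ} (h : 0 < oZ u v w) {p q s : ℝ × ℝ}
    (hp : p ∈ A) (hq : q ∈ A) (hs : s ∈ A) (np : near p u) (nq : near q v) (ns : near s w) :
    (((cx u + cx v + cx w : ℝ) / 3, (cy u + cy v + cy w : ℝ) / 3) : ℝ × ℝ) ∈ convexHull ℝ A := by
  set g : ℝ × ℝ := (((cx u + cx v + cx w : ℝ) / 3, (cy u + cy v + cy w : ℝ) / 3) : ℝ × ℝ) with hg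
  have bu1 := abs_le.1 (cx_le u)
  have bu2 := abs_le.1 (cy_le u)
  have bv1 := abs_le.1 (cx_le v)
  have bv2 := abs_le.1 (cy_le v)
  have bw1 := abs_le.1 (cx_le w)
  have bw2 := abs_le.1 (cy_le w)
  have bg1 : |g.1| ≤ 9 := by
    rw [abs_le, hg]; constructor <;> simp only <;> linarith [bu1.1, bu1.2, bv1.1, bv1.2, bw1.1, bw1.2]
  have bg2 : |g.2| ≤ 9 := by
    rw [abs_le, hg]; constructor <;> simp only <;> linarith [bu2.1, bu2.2, bv2.1, bv2.2, bw2.1, bw2.2]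
  have hgg1 : |g.1 - g.1| ≤ 1 / 1000 := by simp
  have hgg2 : |g.2 - g.2| ≤ 1 / 1000 := by simp
  have hone : (1 : ℝ) ≤ (oZ u v w : ℝ) := by exact_mod_cast h
  refine mem_tri hp hq hs ?_ ?_ ?_
  · have h1 := orient_err (p0 := ((cx u : ℝ), (cy u : ℝ))) (q0 := ((cx v : ℝ), (cy v : ℝ)))
      (r0 := g) (p := p) (q := q) (r := g) np.1.le np.2.le nq.1.le nq.2.le hgg1 hgg2
      (cx_le u) (cy_le u) (cx_le v) (cy_le v) bg1 bg2
    have h2 : orient ((cx u : ℝ), (cy u : ℝ)) ((cx v : ℝ), (cy v : ℝ)) g = (oZ u v w : ℝ) / 3 := by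
      rw [hg]; unfold orient oZ; push_cast; ring
    rw [h2, abs_le] at h1
    linarith [h1.1]
  · have h1 := orient_err (p0 := ((cx v : ℝ), (cy v : ℝ))) (q0 := ((cx w : ℝ), (cy w : ℝ)))
      (r0 := g) (p := q) (q := s) (r := g) nq.1.le nq.2.le ns.1.le ns.2.le hgg1 hgg2
      (cx_le v) (cy_le v) (cx_le w) (cy_le w) bg1 bg2
    have h2 : orient ((cx v : ℝ), (cy v : ℝ)) ((cx w : ℝ), (cy w : ℝ)) g = (oZ u v w : ℝ) / 3 := by
      rw [hg]; unfold orient oZ; push_cast; ring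
    rw [h2, abs_le] at h1
    linarith [h1.1]
  · have h1 := orient_err (p0 := ((cx w : ℝ), (cy w : ℝ))) (q0 := ((cx u : ℝ), (cy u : ℝ)))
      (r0 := g) (p := s) (q := p) (r := g) ns.1.le ns.2.le np.1.le np.2.le hgg1 hgg2
      (cx_le w) (cy_le w) (cx_le u) (cy_le u) bg1 bg2
    have h2 : orient ((cx w : ℝ), (cy w : ℝ)) ((cx u : ℝ), (cy u : ℝ)) g = (oZ u v w : ℝ) / 3 := by
      rw [hg]; unfold orient oZ; push_cast; ring
    rw [h2, abs_le] at h1
    linarith [h1.1]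

/-- sets with disjoint hulls are compatible -/
theorem bad_false {A B : Set (ℝ × ℝ)} (hdis : Disjoint (convexHull ℝ A) (convexHull ℝ B))
    {S T : ℕ} (hS : ∀ c, has S c = true → ∃ p ∈ A, near p c)
    (hT : ∀ c, has T c = true → ∃ p ∈ B, near p c) : bad S T = false := by
  by_contra hne
  rw [Bool.not_eq_false] at hne
  unfold bad at hne
  simp only [Bool.or_eq_true, List.any_eq_true, Bool.and_eq_true] at hne
  rcases hne with ⟨q, hq, ⟨⟨h1, h2⟩, h3⟩, h4⟩ | ⟨q, hq, ⟨⟨h1, h2⟩, h3⟩, h4⟩ |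
    ⟨q, hq, ⟨⟨h1, h2⟩, h3⟩, h4⟩ | ⟨q, hq, ⟨⟨h1, h2⟩, h3⟩, h4⟩ |
    ⟨q, hq, ⟨⟨h1, h2⟩, h3⟩, ⟨h4, h5⟩, h6⟩
  · obtain ⟨k1, k2, k3, k4, -⟩ := crs_ok q hq
    obtain ⟨a, ha, na⟩ := hS _ h1
    obtain ⟨b, hb, nb⟩ := hS _ h2
    obtain ⟨c, hc, nc⟩ := hT _ h3
    obtain ⟨d, hd, nd⟩ := hT _ h4
    exact cross_inter ha hb hc hd (orient_pos k1 na nb nc) (orient_neg k2 na nb nd)
      (orient_neg k3 nc nd na) (orient_pos k4 nc nd nb) hdis
  · obtain ⟨k1, k2, k3, k4, -⟩ := crs_ok q hq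
    obtain ⟨a, ha, na⟩ := hT _ h1
    obtain ⟨b, hb, nb⟩ := hT _ h2
    obtain ⟨c, hc, nc⟩ := hS _ h3
    obtain ⟨d, hd, nd⟩ := hS _ h4
    exact cross_inter ha hb hc hd (orient_pos k1 na nb nc) (orient_neg k2 na nb nd)
      (orient_neg k3 nc nd na) (orient_pos k4 nc nd nb) hdis.symm
  · obtain ⟨k1, k2, k3, -⟩ := tris_ok q hq
    obtain ⟨a, ha, na⟩ := hS _ h1
    obtain ⟨b, hb, nb⟩ := hS _ h2
    obtain ⟨c, hc, nc⟩ := hS _ h3
    obtain ⟨d, hd, nd⟩ := hT _ h4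
    exact Set.disjoint_left.1 hdis (mem_tri ha hb hc (orient_pos k1 na nb nd)
      (orient_pos k2 nb nc nd) (orient_pos k3 nc na nd)) (subset_convexHull ℝ B hd)
  · obtain ⟨k1, k2, k3, -⟩ := tris_ok q hq
    obtain ⟨a, ha, na⟩ := hT _ h1
    obtain ⟨b, hb, nb⟩ := hT _ h2
    obtain ⟨c, hc, nc⟩ := hT _ h3
    obtain ⟨d, hd, nd⟩ := hS _ h4
    exact Set.disjoint_left.1 hdis (subset_convexHull ℝ A hd) (mem_tri ha hb hc
      (orient_pos k1 na nb nd) (orient_pos k2 nb nc nd) (orient_pos k3 nc na nd))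
  · obtain ⟨k1, -⟩ := trips_ok q hq
    obtain ⟨a, ha, na⟩ := hS _ h1
    obtain ⟨b, hb, nb⟩ := hS _ h2
    obtain ⟨c, hc, nc⟩ := hS _ h3
    obtain ⟨a', ha', na'⟩ := hT _ h4
    obtain ⟨b', hb', nb'⟩ := hT _ h5
    obtain ⟨c', hc', nc'⟩ := hT _ h6
    exact Set.disjoint_left.1 hdis (centroid_mem k1 ha hb hc na nb nc)
      (centroid_mem k1 ha' hb' hc' na' nb' nc')

end Pool.Agent.TH750.Bal
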