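import Pool.Agent.TH750.BalCheck

/-!
# What the finite check says
-/

set_option autoImplicit false

namespace Pool.Agent.TH750.Bal

theorem has_eq (S c : ℕ) : has S c = Nat.testBit S c := by
  unfold has
  rw [Nat.testBit_eq_decide_div_mod_eq]
  by_cases h : S / 2 ^ c % 2 = 1
  · simp [h]
  · have h0 : S / 2 ^ c % 2 = 0 := by omega
    rw [h0]
    rfl

theorem has_lor (S T c : ℕ) : has (Nat.lor S T) c = (has S c || has T c) := by
  simp only [has_eq]
  exact Nat.testBit_or S T c

theorem has_lor' (S T c : ℕ) : has (S ||| T) c = (has S c || has T c) := has_lor S T c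

theorem spec (x y z w : ℕ × ℕ × ℕ × ℕ) (hx : x ∈ big) (hy : y ∈ big) (hz : z ∈ big)
    (hw : w ∈ recs) (h01 : comp x y = true) (h02 : comp x z = true) (h12 : comp y z = true)
    (h03 : comp x w = true) (h13 : comp y w = true) (h23 : comp z w = true)
    (a1 : hall (Nat.lor y.1 x.1) 18 = true) (a2 : hall (Nat.lor z.1 x.1) 18 = true)
    (a3 : hall (Nat.lor z.1 y.1) 18 = true) (a4 : hall (Nat.lor z.1 (Nat.lor x.1 y.1)) 27 = true)
    (b1 : hall (Nat.lor w.1 x.1) 12 = true) (b2 : hall (Nat.lor w.1 y.1) 12 = true)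
    (b3 : hall (Nat.lor w.1 z.1) 12 = true) (b4 : hall (Nat.lor w.1 (Nat.lor x.1 y.1)) 21 = true)
    (b5 : hall (Nat.lor w.1 (Nat.lor x.1 z.1)) 21 = true)
    (b6 : hall (Nat.lor w.1 (Nat.lor y.1 z.1)) 21 = true)
    (b7 : hall (Nat.lor w.1 (Nat.lor x.1 (Nat.lor y.1 z.1))) 30 = true) : False := by
  have h := check_true
  unfold d0 at h
  rw [List.all_eq_true] at h
  have h1 := h x hx
  unfold d1 at h1
  rw [List.all_eq_true] at h1
  have h2 := h1 y (List.mem_filter.2 ⟨hy, h01⟩)
  rw [a1, Bool.not_true, Bool.false_or] at h2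
  unfold d2 at h2
  rw [List.all_eq_true] at h2
  have h3 := h2 z (List.mem_filter.2 ⟨List.mem_filter.2 ⟨hz, h02⟩, h12⟩)
  rw [a2, a3, a4] at h3
  simp only [Bool.and_self, Bool.not_true, Bool.false_or] at h3
  unfold d3 at h3
  rw [List.all_eq_true] at h3
  have h4 := h3 w (List.mem_filter.2 ⟨List.mem_filter.2 ⟨List.mem_filter.2 ⟨hw, h03⟩, h13⟩, h23⟩)
  rw [b1, b2, b3, b4, b5, b6, b7] at h4
  simp at h4

theorem complete (S : ℕ) (hS : S < 256) (hc : closed S = true) (hh : hall S 3 = true) :
    ∃ x ∈ recs, x.1 = S := by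
  have h := complete_true
  rw [List.all_eq_true] at h
  have h1 := h S (List.mem_range.2 hS)
  rw [hc, hh] at h1
  simp only [Bool.not_true, Bool.false_or, List.any_eq_true] at h1
  obtain ⟨x, hx, hxS⟩ := h1
  exact ⟨x, hx, Nat.eq_of_beq_eq_true hxS⟩

theorem sound (x y : ℕ × ℕ × ℕ × ℕ) (hx : x ∈ recs) (hy : y ∈ recs) (hb : bad x.1 y.1 = false) :
    comp x y = true := by
  have h := sound_true
  rw [List.all_eq_true] at h
  have h1 := h x hx
  rw [List.all_eq_true] at h1
  have h2 := h1 y hy
  rw [hb, Bool.or_false] at h2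
  exact h2

/-- the sizes of the four parts -/
def mm : Fin 4 → ℕ := ![9, 9, 9, 3]

theorem hall_mono {S a b : ℕ} (hab : a ≤ b) (h : hall S b = true) : hall S a = true := by
  unfold hall at *
  simp only [Bool.and_eq_true, Nat.ble_eq] at *
  omega

/-- **The combinatorial heart**: there are no four sets of clusters which are closed, pairwise
compatible and satisfy the counting conditions. -/
theorem no_masks (S : Fin 4 → ℕ) (hlt : ∀ i, S i < 256) (hcl : ∀ i, closed (S i) = true)
    (hbad : ∀ i j, i ≠ j → bad (S i) (S j) = false)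
    (hH : ∀ (T : Finset (Fin 4)) (U : ℕ), (∀ i ∈ T, ∀ c < 8, has (S i) c = true → has U c = true) →
      hall U (∑ i ∈ T, mm i) = true) : False := by
  have hsingle : ∀ i, hall (S i) (mm i) = true := by
    intro i
    have := hH {i} (S i) (by
      intro j hj c _ h
      rw [Finset.mem_singleton] at hj
      subst hj
      exact h)
    simpa using this
  have h3 : ∀ i, hall (S i) 3 = true := by
    intro i
    refine hall_mono ?_ (hsingle i)
    fin_cases i <;> simp [mm]
  obtain ⟨x, hx, hxS⟩ := complete (S 0) (hlt 0) (hcl 0) (h3 0)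
  obtain ⟨y, hy, hyS⟩ := complete (S 1) (hlt 1) (hcl 1) (h3 1)
  obtain ⟨z, hz, hzS⟩ := complete (S 2) (hlt 2) (hcl 2) (h3 2)
  obtain ⟨w, hw, hwS⟩ := complete (S 3) (hlt 3) (hcl 3) (h3 3)
  have hbx : x ∈ big := List.mem_filter.2 ⟨hx, by rw [hxS]; exact hsingle 0⟩
  have hby : y ∈ big := List.mem_filter.2 ⟨hy, by rw [hyS]; exact hsingle 1⟩
  have hbz : z ∈ big := List.mem_filter.2 ⟨hz, by rw [hzS]; exact hsingle 2⟩
  have c01 := sound x y hx hy (by rw [hxS, hyS]; exact hbad 0 1 (by decide))
  have c02 := sound x z hx hz (by rw [hxS, hzS]; exact hbad 0 2 (by decide))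
  have c12 := sound y z hy hz (by rw [hyS, hzS]; exact hbad 1 2 (by decide))
  have c03 := sound x w hx hw (by rw [hxS, hwS]; exact hbad 0 3 (by decide))
  have c13 := sound y w hy hw (by rw [hyS, hwS]; exact hbad 1 3 (by decide))
  have c23 := sound z w hz hw (by rw [hzS, hwS]; exact hbad 2 3 (by decide))
  have key : ∀ (T : Finset (Fin 4)) (U n : ℕ), (∑ i ∈ T, mm i) = n →
      (∀ i ∈ T, ∀ c, has (S i) c = true → has U c = true) → hall U n = true := by
    intro T U n hn hU
    rw [← hn]
    exact hH T U (fun i hi c _ h => hU i hi c h)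
  refine spec x y z w hbx hby hbz hw c01 c02 c12 c03 c13 c23 ?_ ?_ ?_ ?_ ?_ ?_ ?_ ?_ ?_ ?_ ?_
  · refine key {0, 1} _ 18 (by decide) ?_
    intro i hi c h
    rw [hxS, hyS]
    simp only [Finset.mem_insert, Finset.mem_singleton] at hi
    rcases hi with rfl | rfl <;> simp [has_lor', h]
  · refine key {0, 2} _ 18 (by decide) ?_
    intro i hi c h
    rw [hxS, hzS]
    simp only [Finset.mem_insert, Finset.mem_singleton] at hi
    rcases hi with rfl | rfl <;> simp [has_lor', h]
  · refine key {1, 2} _ 18 (by decide) ?_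
    intro i hi c h
    rw [hyS, hzS]
    simp only [Finset.mem_insert, Finset.mem_singleton] at hi
    rcases hi with rfl | rfl <;> simp [has_lor', h]
  · refine key {0, 1, 2} _ 27 (by decide) ?_
    intro i hi c h
    rw [hxS, hyS, hzS]
    simp only [Finset.mem_insert, Finset.mem_singleton] at hi
    rcases hi with rfl | rfl | rfl <;> simp [has_lor', h]
  · refine key {0, 3} _ 12 (by decide) ?_
    intro i hi c h
    rw [hxS, hwS]
    simp only [Finset.mem_insert, Finset.mem_singleton] at hi
    rcases hi with rfl | rfl <;> simp [has_lor', h]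
  · refine key {1, 3} _ 12 (by decide) ?_
    intro i hi c h
    rw [hyS, hwS]
    simp only [Finset.mem_insert, Finset.mem_singleton] at hi
    rcases hi with rfl | rfl <;> simp [has_lor', h]
  · refine key {2, 3} _ 12 (by decide) ?_
    intro i hi c h
    rw [hzS, hwS]
    simp only [Finset.mem_insert, Finset.mem_singleton] at hi
    rcases hi with rfl | rfl <;> simp [has_lor', h]
  · refine key {0, 1, 3} _ 21 (by decide) ?_
    intro i hi c h
    rw [hxS, hyS, hwS]
    simp only [Finset.mem_insert, Finset.mem_singleton] at hi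
    rcases hi with rfl | rfl | rfl <;> simp [has_lor', h]
  · refine key {0, 2, 3} _ 21 (by decide) ?_
    intro i hi c h
    rw [hxS, hzS, hwS]
    simp only [Finset.mem_insert, Finset.mem_singleton] at hi
    rcases hi with rfl | rfl | rfl <;> simp [has_lor', h]
  · refine key {1, 2, 3} _ 21 (by decide) ?_
    intro i hi c h
    rw [hyS, hzS, hwS]
    simp only [Finset.mem_insert, Finset.mem_singleton] at hi
    rcases hi with rfl | rfl | rfl <;> simp [has_lor', h]
  · refine key {0, 1, 2, 3} _ 30 (by decide) ?_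
    intro i hi c h
    rw [hxS, hyS, hzS, hwS]
    simp only [Finset.mem_insert, Finset.mem_singleton] at hi
    rcases hi with rfl | rfl | rfl | rfl <;> simp [has_lor', h]

end Pool.Agent.TH750.Bal
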