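import Pool.Agent.TH948.KK.Defs
import Pool.Agent.TH965.Final
set_option autoImplicit false
set_option linter.unusedSectionVars false
set_option linter.unusedVariables false

namespace Pool.Agent.TH948.KK

open Finset
open Pool.Agent.TH965.Spread

private lemma sixteen_of_choose {a b : ℕ} (ha : a ≠ 0) (h : (48 : ℝ) ^ a ≤ (b.choose a : ℝ)) :
    16 * a ≤ b := by
  have h1 : (b.choose a : ℝ) ≤ (b : ℝ) ^ a / (a.factorial : ℝ) := Nat.choose_le_pow_div a b
  have hf : (0 : ℝ) < (a.factorial : ℝ) := by exact_mod_cast a.factorial_pos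
  have h2 : (a : ℝ) ^ a / (a.factorial : ℝ) ≤ 3 ^ a := by
    refine (Real.pow_div_factorial_le_exp (a : ℝ) (Nat.cast_nonneg a) a).trans ?_
    have e : Real.exp (a : ℝ) = Real.exp 1 ^ a := by
      rw [← Real.exp_nat_mul]; simp
    rw [e]
    exact pow_le_pow_left₀ (Real.exp_pos 1).le (by linarith [Real.exp_one_lt_d9]) a
  have h3 : (48 : ℝ) ^ a * (a.factorial : ℝ) ≤ (b : ℝ) ^ a := by
    have := h.trans h1
    rwa [le_div_iff₀ hf] at this
  have h4 : (a : ℝ) ^ a ≤ 3 ^ a * (a.factorial : ℝ) := by
    rwa [div_le_iff₀ hf] at h2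
  have h5 : ((16 * a : ℕ) : ℝ) ^ a ≤ (b : ℝ) ^ a := by
    push_cast
    calc (16 * (a : ℝ)) ^ a = 16 ^ a * (a : ℝ) ^ a := by rw [mul_pow]
      _ ≤ 16 ^ a * (3 ^ a * (a.factorial : ℝ)) := by gcongr
      _ = 48 ^ a * (a.factorial : ℝ) := by rw [← mul_assoc, ← mul_pow]; norm_num
      _ ≤ _ := h3
  have h6 := (pow_le_pow_iff_left₀ (Nat.cast_nonneg (16 * a)) (Nat.cast_nonneg b) ha).1 h5
  exact_mod_cast h6

lemma exists_kernel {G X : Type*} [Group G] [Fintype G] [Fintype X] [DecidableEq X]
    (φ : G →* Equiv.Perm X) (B : Finset X) (hB : B.Nonempty) (q : ℝ) (hq : 0 < q)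
    (hN : ∀ A ⊆ B, 1 ≤ ((univ.image (fun g : G => A.image (φ g))).card : ℝ) * q ^ A.card) :
    ∃ A ⊆ B, 16 * A.card ≤ B.card ∧
      ∀ (g : G) (S : Finset X), Disjoint S (A.image (φ g)) →
        ((univ.filter (fun h : G => S ∪ A.image (φ g) ⊆ B.image (φ h))).card : ℝ)
          ≤ (48 * q) ^ S.card
            * ((univ.filter (fun h : G => A.image (φ g) ⊆ B.image (φ h))).card : ℝ) := by
  classical
  set M : Finset X → ℕ := fun T => (univ.filter (fun h : G => T ⊆ B.image (φ h))).card with hM
  have h48 : (0 : ℝ) < 48 * q := by positivity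
  -- images compose
  have himg : ∀ (g h : G) (T : Finset X), (T.image (φ h)).image (φ g) = T.image (φ (g * h)) := by
    intro g h T
    rw [Finset.image_image]
    congr 1
    funext x
    simp [map_mul]
  have hone : ∀ (T : Finset X), T.image (φ 1) = T := by
    intro T
    rw [map_one]
    simp
  have hsub : ∀ (g h : G) (T : Finset X),
      T.image (φ g) ⊆ B.image (φ h) ↔ T ⊆ B.image (φ (g⁻¹ * h)) := by
    intro g h T
    constructor
    · intro hs
      have := Finset.image_subset_image (f := φ g⁻¹) hs
      rwa [himg, himg, inv_mul_cancel, hone] at this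
    · intro hs
      have := Finset.image_subset_image (f := φ g) hs
      rwa [himg, mul_inv_cancel_left] at this
  have hinv : ∀ (g : G) (T : Finset X), M (T.image (φ g)) = M T := by
    intro g T
    simp only [hM]
    refine Finset.card_bij (fun h _ => g⁻¹ * h) ?_ ?_ ?_
    · intro h hh
      simp only [mem_filter, mem_univ, true_and] at hh ⊢
      exact (hsub g h T).1 hh
    · intro h1 _ h2 _ e
      exact mul_left_cancel e
    · intro h hh
      simp only [mem_filter, mem_univ, true_and] at hh
      refine ⟨g * h, ?_, by simp⟩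
      simp only [mem_filter, mem_univ, true_and]
      rw [hsub, inv_mul_cancel_left]
      exact hh
  have hcard : ∀ (g : G) (T : Finset X), (T.image (φ g)).card = T.card := by
    intro g T
    exact Finset.card_image_of_injective T (φ g).injective
  set w : Finset X → ℝ := fun T => (M T : ℝ) * ((48 * q) ^ T.card)⁻¹ with hw
  have hw0 : ∀ T, 0 ≤ w T := by
    intro T; simp only [hw]; positivity
  obtain ⟨A, hA, hmax⟩ := Finset.exists_max_image B.powerset w ⟨∅, by simp⟩
  rw [Finset.mem_powerset] at hA
  have hall : ∀ T : Finset X, w T ≤ w A := by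
    intro T
    by_cases hT : M T = 0
    · have : w T = 0 := by simp [hw, hT]
      rw [this]; exact hw0 A
    · have hpos : 0 < M T := Nat.pos_of_ne_zero hT
      simp only [hM] at hpos
      rw [Finset.card_pos] at hpos
      obtain ⟨h0, hh0⟩ := hpos
      simp only [mem_filter, mem_univ, true_and] at hh0
      have hs : T.image (φ h0⁻¹) ⊆ B := by
        have := Finset.image_subset_image (f := φ h0⁻¹) hh0
        rwa [himg, inv_mul_cancel, hone] at this
      have h1 := hmax (T.image (φ h0⁻¹)) (Finset.mem_powerset.2 hs)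
      have h2 : w (T.image (φ h0⁻¹)) = w T := by
        simp only [hw]
        rw [hinv, hcard]
      rwa [h2] at h1
  refine ⟨A, hA, ?_, ?_⟩
  · -- size
    by_cases ha : A.card = 0
    · rw [ha]; simp
    apply sixteen_of_choose ha
    have hG : (0 : ℝ) < (Fintype.card G : ℝ) := by
      exact_mod_cast Fintype.card_pos
    set O := univ.image (fun g : G => A.image (φ g)) with hO
    have e1 : (Fintype.card G : ℝ) ≤ w A := by
      have := hall ∅
      simp only [hw, hM, Finset.card_empty, pow_zero, inv_one, mul_one, Finset.empty_subset,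
        Finset.filter_true, Finset.card_univ] at this
      exact this
    have e2 : (Fintype.card G : ℝ) * (48 * q) ^ A.card ≤ (M A : ℝ) := by
      have : w A = (M A : ℝ) / (48 * q) ^ A.card := by simp only [hw]; rw [div_eq_mul_inv]
      rw [this, le_div_iff₀ (by positivity)] at e1
      exact e1
    have e3 : O.card * M A ≤ Fintype.card G * (B.card.choose A.card) := by
      have s1 : O.card * M A = ∑ A' ∈ O, M A' := by
        rw [Finset.sum_const_nat (m := M A)]
        intro A' hA'
        rw [hO, Finset.mem_image] at hA'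
        obtain ⟨g, _, rfl⟩ := hA'
        exact hinv g A
      have s2 : ∑ A' ∈ O, M A' = ∑ h : G, (O.filter (fun A' => A' ⊆ B.image (φ h))).card := by
        simp only [hM, Finset.card_filter]
        rw [Finset.sum_comm]
      rw [s1, s2]
      have s3 : ∀ h ∈ (univ : Finset G), (O.filter (fun A' => A' ⊆ B.image (φ h))).card
          ≤ B.card.choose A.card := by
        intro h _
        have : O.filter (fun A' => A' ⊆ B.image (φ h)) ⊆ (B.image (φ h)).powersetCard A.card := by
          intro A' hA'
          rw [Finset.mem_filter, hO, Finset.mem_image] at hA'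
          obtain ⟨⟨g, _, rfl⟩, hs⟩ := hA'
          rw [Finset.mem_powersetCard]
          exact ⟨hs, hcard g A⟩
        refine (Finset.card_le_card this).trans ?_
        rw [Finset.card_powersetCard, hcard]
      refine (Finset.sum_le_sum s3).trans ?_
      rw [Finset.sum_const, Finset.card_univ, smul_eq_mul]
    have e4 : ((O.card : ℝ)) * (M A : ℝ) ≤ (Fintype.card G : ℝ) * (B.card.choose A.card : ℝ) := by
      exact_mod_cast e3
    have e5 : (1 : ℝ) ≤ (O.card : ℝ) * q ^ A.card := hN A hA
    have e6 : (Fintype.card G : ℝ) * (48 : ℝ) ^ A.card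
        ≤ (Fintype.card G : ℝ) * (B.card.choose A.card : ℝ) := by
      calc (Fintype.card G : ℝ) * (48 : ℝ) ^ A.card
          = (Fintype.card G : ℝ) * (48 : ℝ) ^ A.card * 1 := by ring
        _ ≤ (Fintype.card G : ℝ) * (48 : ℝ) ^ A.card * ((O.card : ℝ) * q ^ A.card) := by gcongr
        _ = (O.card : ℝ) * ((Fintype.card G : ℝ) * (48 * q) ^ A.card) := by rw [mul_pow]; ring
        _ ≤ (O.card : ℝ) * (M A : ℝ) := by gcongr
        _ ≤ _ := e4
    exact le_of_mul_le_mul_left e6 hG
  · intro g S hS
    have h1 := hall (S ∪ A.image (φ g))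
    have hc : (S ∪ A.image (φ g)).card = S.card + A.card := by
      rw [Finset.card_union_of_disjoint hS, hcard]
    simp only [hw] at h1
    rw [hc] at h1
    have h2 : (M (A.image (φ g)) : ℝ) = (M A : ℝ) := by rw [hinv]
    have h3 : (M (S ∪ A.image (φ g)) : ℝ) ≤ (48 * q) ^ S.card * (M (A.image (φ g)) : ℝ) := by
      rw [h2]
      rw [← div_eq_mul_inv, ← div_eq_mul_inv, div_le_div_iff₀ (by positivity) (by positivity)] at h1
      have hp : (0 : ℝ) < (48 * q) ^ A.card := by positivity
      rw [pow_add] at h1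
      have : (M (S ∪ A.image (φ g)) : ℝ) * (48 * q) ^ A.card
          ≤ ((48 * q) ^ S.card * (M A : ℝ)) * (48 * q) ^ A.card := by
        calc _ ≤ _ := h1
          _ = _ := by ring
      exact le_of_mul_le_mul_right this hp
    exact h3

end Pool.Agent.TH948.KK
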