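import Pool.Agent.TH750.Scott

/-!
# Finitely generated commutative rings are not self-reflective

If `a` generates the commutative ring `A` and `x` is a tuple of `A` satisfying all the universal
formulas true of `a`, then `x` generates `A`: by the Hilbert basis theorem there is a ring
endomorphism `r` of `A` with `r x = a`; it is surjective, hence injective as `A` is noetherian.
-/

set_option autoImplicit false

namespace Pool.Agent.TH750.SC

open FirstOrder FirstOrder.Language FirstOrder.Ring

/-- a surjective ring endomorphism of a noetherian commutative ring is injective -/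
theorem injective_of_surjective_endo {A : Type} [CommRing A] [IsNoetherianRing A] (r : A →+* A)
    (hr : Function.Surjective r) : Function.Injective r := by
  -- the kernels of the powers of `r`
  let K : ℕ →o Ideal A :=
    { toFun := fun m => RingHom.ker (r ^ m)
      monotone' := by
        refine monotone_nat_of_le_succ fun m => ?_
        intro x hx
        rw [RingHom.mem_ker] at hx ⊢
        rw [pow_succ', RingHom.mul_def, RingHom.comp_apply, hx, map_zero] }
  obtain ⟨m, hm⟩ := monotone_stabilizes_iff_noetherian.2 inferInstance K
  rw [injective_iff_map_eq_zero]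
  intro x hx
  have hs : Function.Surjective (r ^ m) := by
    rw [RingHom.coe_pow]
    exact hr.iterate m
  obtain ⟨y, rfl⟩ := hs x
  have h1 : y ∈ K (m + 1) := by
    change y ∈ RingHom.ker (r ^ (m + 1))
    rw [RingHom.mem_ker, pow_succ', RingHom.mul_def, RingHom.comp_apply]
    exact hx
  rw [← hm (m + 1) (Nat.le_succ m)] at h1
  exact h1

theorem isQF_iInf {L : FirstOrder.Language.{0, 0}} {α β : Type} [Finite β] (f : β → L.Formula α)
    (hf : ∀ b, BoundedFormula.IsQF (f b)) : BoundedFormula.IsQF (Formula.iInf f) := by
  unfold Formula.iInf BoundedFormula.iInf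
  have key : ∀ l : List (L.Formula α), (∀ φ ∈ l, BoundedFormula.IsQF φ) →
      BoundedFormula.IsQF (l.foldr (· ⊓ ·) (⊤ : L.BoundedFormula α 0)) := by
    intro l
    induction l with
    | nil => intro _; exact BoundedFormula.IsQF.top
    | cons φ l ih =>
      intro h
      rw [List.foldr_cons]
      exact (h φ (by simp)).inf (ih fun ψ hψ => h ψ (by simp [hψ]))
  refine key _ ?_
  intro φ hφ
  rw [List.mem_map] at hφ
  obtain ⟨b, _, rfl⟩ := hφ
  exact hf b

/-- **Key lemma.** If `x` satisfies the universal formulas true of the generating tuple `a` then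
some ring endomorphism maps `x` to `a`. -/
theorem exists_endo {A : Type} [CommRing A] [CompatibleRing A] {n : ℕ} {a x : Fin n → A}
    (ha : Function.Surjective (FreeCommRing.lift a))
    (h : UnivLE (L := FirstOrder.Language.ring) a x) :
    ∃ r : A →+* A, ∀ i, r (x i) = a i := by
  classical
  have hN : IsNoetherianRing (FreeCommRing (Fin n)) :=
    isNoetherianRing_of_ringEquiv _ (freeCommRingEquivMvPolynomialInt (Fin n)).symm
  -- the ideal of relations of `a` is finitely generated
  obtain ⟨S, hS⟩ := (isNoetherianRing_iff_ideal_fg _).1 hN (RingHom.ker (FreeCommRing.lift a))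
  choose q hq using fun i => ha (x i)
  -- the quantifier-free formula `⋀ p(ȳ) = 0 ∧ ⋀ q_i(ȳ) = z_i`
  let θ1 : FirstOrder.Language.ring.Formula (Fin (n + n)) :=
    Formula.iInf (fun p : S =>
      Term.equal (Term.relabel (Fin.natAdd n) (termOfFreeCommRing (p : FreeCommRing (Fin n))))
        (0 : FirstOrder.Language.ring.Term (Fin (n + n))))
  let θ2 : FirstOrder.Language.ring.Formula (Fin (n + n)) :=
    Formula.iInf (fun i : Fin n =>
      Term.equal (Term.relabel (Fin.natAdd n) (termOfFreeCommRing (q i)))
        (Term.var (Fin.castAdd n i)))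
  let θ : FirstOrder.Language.ring.Formula (Fin (n + n)) := θ1 ⊓ θ2
  have hapR : ∀ z w : Fin n → A, (Fin.append z w) ∘ Fin.natAdd n = w := by
    intro z w
    funext i
    exact Fin.append_right _ _ i
  have hθ : ∀ z w : Fin n → A, Formula.Realize θ (Fin.append z w) ↔
      (∀ p ∈ S, FreeCommRing.lift w p = 0) ∧ ∀ i, FreeCommRing.lift w (q i) = z i := by
    intro z w
    change Formula.Realize (θ1 ⊓ θ2) _ ↔ _
    rw [Formula.realize_inf, Formula.realize_iInf, Formula.realize_iInf]
    refine and_congr ?_ ?_
    · simp only [Formula.realize_equal, Term.realize_relabel, realize_termOfFreeCommRing, hapR,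
        Subtype.forall]
      refine forall₂_congr fun p _ => ?_
      have : Term.realize (Fin.append z w) (0 : FirstOrder.Language.ring.Term (Fin (n + n))) = 0 :=
        realize_zero _
      rw [this]
    · simp only [Formula.realize_equal, Term.realize_relabel, realize_termOfFreeCommRing, hapR,
        Term.realize_var, Fin.append_left]
  have hθqf : BoundedFormula.IsQF θ := by
    have h1 : BoundedFormula.IsQF θ1 :=
      isQF_iInf _ fun p => (BoundedFormula.IsAtomic.equal _ _).isQF
    have h2 : BoundedFormula.IsQF θ2 :=
      isQF_iInf _ fun i => (BoundedFormula.IsAtomic.equal _ _).isQF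
    exact h1.inf h2
  -- `∃ ȳ θ(x, ȳ)` holds
  have hx : Formula.Realize θ (Fin.append x a) := by
    rw [hθ]
    refine ⟨fun p hp => ?_, hq⟩
    have : p ∈ RingHom.ker (FreeCommRing.lift a) := by
      rw [← hS]
      exact Ideal.subset_span hp
    exact this
  -- hence `∃ ȳ θ(a, ȳ)` holds
  have hex : ∃ c : Fin n → A, Formula.Realize θ (Fin.append a c) := by
    by_contra hne
    push Not at hne
    have := h n θ.not hθqf.not (fun w => by
      rw [Formula.realize_not]
      exact hne w) a
    rw [Formula.realize_not] at this
    exact this hx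
  obtain ⟨c, hc⟩ := hex
  rw [hθ] at hc
  obtain ⟨hc1, hc2⟩ := hc
  have hker : RingHom.ker (FreeCommRing.lift a) ≤ RingHom.ker (FreeCommRing.lift c) := by
    rw [← hS, Ideal.span_le]
    intro p hp
    exact hc1 p hp
  refine ⟨(FreeCommRing.lift a).liftOfRightInverse (Function.surjInv ha)
    (Function.rightInverse_surjInv ha) ⟨FreeCommRing.lift c, hker⟩, ?_⟩
  intro i
  have := RingHom.liftOfRightInverse_comp_apply (FreeCommRing.lift a) (Function.surjInv ha)
    (Function.rightInverse_surjInv ha) ⟨FreeCommRing.lift c, hker⟩ (q i)
  rw [hq i] at this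
  exact this.trans (hc2 i)

/-- a tuple satisfying the universal formulas true of a generating tuple is generating -/
theorem surjective_of_univLE {A : Type} [CommRing A] [CompatibleRing A] {n : ℕ} {a x : Fin n → A}
    (ha : Function.Surjective (FreeCommRing.lift a))
    (h : UnivLE (L := FirstOrder.Language.ring) a x) :
    Function.Surjective (FreeCommRing.lift x) := by
  have hN : IsNoetherianRing (FreeCommRing (Fin n)) :=
    isNoetherianRing_of_ringEquiv _ (freeCommRingEquivMvPolynomialInt (Fin n)).symm
  have hA : IsNoetherianRing A := isNoetherianRing_of_surjective _ _ _ ha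
  obtain ⟨r, hr⟩ := exists_endo ha h
  have hcomp : r.comp (FreeCommRing.lift x) = FreeCommRing.lift a := by
    refine FreeCommRing.hom_ext fun i => ?_
    simp [hr]
  have hrs : Function.Surjective r := by
    intro y
    obtain ⟨p, hp⟩ := ha y
    refine ⟨FreeCommRing.lift x p, ?_⟩
    rw [← hp, ← hcomp]
    rfl
  have hri := injective_of_surjective_endo r hrs
  intro y
  obtain ⟨p, hp⟩ := ha (r y)
  refine ⟨p, hri ?_⟩
  rw [← hp, ← hcomp]
  rfl

end Pool.Agent.TH750.SC
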