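import Mathlib

/-!
# Infinitary formulas and d-Sigma_2 Scott sentences

Definitions (formulas of `L_{ω₁ω}` in normal form, the levels `Σ_n`, `Π_n`, Scott sentences) and two
general criteria for the existence of d-`Σ_2` Scott sentences of finitely generated structures.
-/

set_option autoImplicit false

namespace Pool.Agent.TH750.SC

open FirstOrder FirstOrder.Language

/-- infinitary formulas with `n` free variables in normal form: finitary quantifier-free formulas,
countable disjunctions `⋁_i ∃ x_1 … x_{k i}, φ_i` and countable conjunctions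
`⋀_i ∀ x_1 … x_{k i}, φ_i` -/
inductive Fml (L : FirstOrder.Language.{0, 0}) : ℕ → Type
  | qf {n : ℕ} (φ : L.Formula (Fin n)) (h : BoundedFormula.IsQF φ) : Fml L n
  | disj {n : ℕ} (k : ℕ → ℕ) (φ : (i : ℕ) → Fml L (n + k i)) : Fml L n
  | conj {n : ℕ} (k : ℕ → ℕ) (φ : (i : ℕ) → Fml L (n + k i)) : Fml L n

/-- truth of an infinitary formula at a tuple of a structure -/
def Fml.Realize {L : FirstOrder.Language.{0, 0}} {A : Type} [L.Structure A] :
    {n : ℕ} → Fml L n → (Fin n → A) → Prop
  | _, .qf φ _, v => Formula.Realize φ v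
  | _, .disj k φ, v => ∃ i, ∃ w : Fin (k i) → A, (φ i).Realize (Fin.append v w)
  | _, .conj k φ, v => ∀ i, ∀ w : Fin (k i) → A, (φ i).Realize (Fin.append v w)

/-- `Lv true φ m`: `φ` is a `Σ_m` formula; `Lv false φ m`: `φ` is a `Π_m` formula.
`Σ_0 = Π_0` is the set of finitary quantifier-free formulas; a `Σ_m` formula is a countable
disjunction of formulas `∃ x̄ ψ` with `ψ` in `Π_j`, `j < m`, and dually for `Π_m`. -/
def Fml.Lv {L : FirstOrder.Language.{0, 0}} : Bool → {n : ℕ} → Fml L n → ℕ → Prop
  | _, _, .qf _ _, _ => True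
  | true, _, .disj _ φ, m => ∀ i, ∃ j < m, (φ i).Lv false j
  | false, _, .conj _ φ, m => ∀ i, ∃ j < m, (φ i).Lv true j
  | true, _, .conj _ _, _ => False
  | false, _, .disj _ _, _ => False

/-- `φ` is a `Σ_m` formula -/
def Fml.IsSigma {L : FirstOrder.Language.{0, 0}} {n : ℕ} (φ : Fml L n) (m : ℕ) : Prop := φ.Lv true m

/-- `φ` is a `Π_m` formula -/
def Fml.IsPi {L : FirstOrder.Language.{0, 0}} {n : ℕ} (φ : Fml L n) (m : ℕ) : Prop := φ.Lv false m

/-- the sentence `φ` is true in `A` -/
def Sat {L : FirstOrder.Language.{0, 0}} (A : Type) [L.Structure A] (φ : Fml L 0) : Prop :=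
  φ.Realize (Fin.elim0 : Fin 0 → A)

/-- `A` has a d-`Σ_2` Scott sentence: there are a `Σ_2` sentence `σ` and a `Π_2` sentence `π` such
that the countable models of `σ ∧ π` are exactly the isomorphic copies of `A` -/
def HasDSigma2Scott (L : FirstOrder.Language.{0, 0}) (A : Type) [L.Structure A] : Prop :=
  ∃ σ π : Fml L 0, σ.IsSigma 2 ∧ π.IsPi 2 ∧
    ∀ (B : Type) [L.Structure B] [Countable B], (Sat B σ ∧ Sat B π) ↔ Nonempty (A ≃[L] B)

section Positive

variable {L : FirstOrder.Language.{0, 0}}

/-- the universal formulas with parameters `a` true in `A` are true of `x` -/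
def UnivLE {A : Type} [L.Structure A] {B : Type} [L.Structure B] {n : ℕ} (a : Fin n → A)
    (x : Fin n → B) : Prop :=
  ∀ (k : ℕ) (ψ : L.Formula (Fin (n + k))), BoundedFormula.IsQF ψ →
    (∀ w : Fin k → A, ψ.Realize (Fin.append a w)) → ∀ w : Fin k → B, ψ.Realize (Fin.append x w)

theorem UnivLE.qf {A : Type} [L.Structure A] {B : Type} [L.Structure B] {n : ℕ} {a : Fin n → A}
    {x : Fin n → B} (h : UnivLE (L := L) a x) (ψ : L.Formula (Fin n)) (hψ : BoundedFormula.IsQF ψ) :
    ψ.Realize a ↔ ψ.Realize x := by
  have key : ∀ ψ : L.Formula (Fin n), BoundedFormula.IsQF ψ → ψ.Realize a → ψ.Realize x := by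
    intro ψ hψ ha
    have := h 0 (Formula.relabel (Fin.castAdd 0) ψ) (hψ.relabel _) (by
      intro w
      rw [Formula.realize_relabel]
      convert ha using 1
      funext i
      exact Fin.append_left _ _ i) Fin.elim0
    rw [Formula.realize_relabel] at this
    convert this using 1
    funext i
    exact (Fin.append_left _ _ i).symm
  constructor
  · exact key ψ hψ
  · intro hx
    by_contra hna
    exact key ψ.not hψ.not (by rwa [Formula.realize_not]) hx

/-- if `a` generates `A`, `x` generates `B` and they satisfy the same quantifier-free formulas then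
`A ≃ B` -/
theorem nonempty_equiv_of_qf {A : Type} [L.Structure A] {B : Type} [L.Structure B] {n : ℕ}
    {a : Fin n → A} {x : Fin n → B}
    (h : ∀ ψ : L.Formula (Fin n), BoundedFormula.IsQF ψ → (ψ.Realize a ↔ ψ.Realize x))
    (ha : ∀ y : A, ∃ t : L.Term (Fin n), t.realize a = y)
    (hx : ∀ y : B, ∃ t : L.Term (Fin n), t.realize x = y) : Nonempty (A ≃[L] B) := by
  have heq : ∀ s t : L.Term (Fin n), s.realize a = t.realize a ↔ s.realize x = t.realize x := by
    intro s t
    have := h (Term.equal s t) (BoundedFormula.IsAtomic.equal _ _).isQF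
    rwa [Formula.realize_equal, Formula.realize_equal] at this
  choose ta hta using ha
  choose tx htx using hx
  let e : A ≃ B :=
    { toFun := fun y => (ta y).realize x
      invFun := fun z => (tx z).realize a
      left_inv := by
        intro y
        have : (tx ((ta y).realize x)).realize a = (ta y).realize a := by
          rw [heq, htx]
        exact this.trans (hta y)
      right_inv := by
        intro z
        have : (ta ((tx z).realize a)).realize x = (tx z).realize x := by
          rw [← heq, hta]
        exact this.trans (htx z) }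
  have he : ∀ t : L.Term (Fin n), e (t.realize a) = t.realize x := by
    intro t
    change (ta (t.realize a)).realize x = t.realize x
    rw [← heq, hta]
  refine ⟨{ toEquiv := e, map_fun' := ?_, map_rel' := ?_ }⟩
  · intro m f v
    have h1 : v = fun i => (ta (v i)).realize a := by
      funext i
      rw [hta]
    have h2 : Structure.funMap f v = (Term.func f (fun i => ta (v i))).realize a := by
      rw [Term.realize_func, ← h1]
    change e _ = Structure.funMap f (e ∘ v)
    rw [h2, he, Term.realize_func]
    rfl
  · intro m r v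
    change Structure.RelMap r (e ∘ v) ↔ Structure.RelMap r v
    have := h (r.formula (fun i => ta (v i))) (BoundedFormula.IsAtomic.rel _ _).isQF
    rw [Formula.realize_rel, Formula.realize_rel] at this
    have h1 : (fun i => (ta (v i)).realize a) = v := by
      funext i
      rw [hta]
    rw [h1] at this
    rw [this]
    rfl

theorem append_comp {B : Type} {m n k : ℕ} (V : Fin m → B) (w : Fin k → B) (c : Fin n → Fin m) :
    Fin.append V w ∘ Fin.append (fun j => Fin.castAdd k (c j)) (fun j => Fin.natAdd m j) =
      Fin.append (V ∘ c) w := by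
  funext i
  refine Fin.addCases (fun j => ?_) (fun j => ?_) i
  · rw [Function.comp_apply, Fin.append_left, Fin.append_left, Fin.append_left]
    rfl
  · rw [Function.comp_apply, Fin.append_right, Fin.append_right, Fin.append_right]

/-- **Criterion.** Let `A` be a structure in a countable language generated by the tuple `a`. If
every tuple `x` of `A` satisfying all the (finitary) universal formulas true of `a` generates `A`,
then `A` has a d-`Σ_2` Scott sentence. -/
theorem hasDSigma2Scott_of_generates [Countable L.Symbols] {A : Type} [L.Structure A] {n : ℕ}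
    (a : Fin n → A)
    (ha : ∀ y : A, ∃ t : L.Term (Fin n), t.realize a = y)
    (H : ∀ x : Fin n → A, UnivLE (L := L) a x → ∀ y : A, ∃ t : L.Term (Fin n), t.realize x = y) :
    HasDSigma2Scott L A := by
  classical
  -- enumeration of the universal formulas true of `a`
  let T := Σ k : ℕ, {ψ : L.Formula (Fin (n + k)) // BoundedFormula.IsQF ψ ∧
    ∀ w : Fin k → A, ψ.Realize (Fin.append a w)}
  have : Nonempty T := ⟨⟨0, ⟨⊤, BoundedFormula.IsQF.top, fun w => by simp⟩⟩⟩
  obtain ⟨e, he⟩ := exists_surjective_nat T
  have : Nonempty (T ⊕ L.Term (Fin n)) := ⟨Sum.inl (e 0)⟩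
  obtain ⟨g, hg⟩ := exists_surjective_nat (T ⊕ L.Term (Fin n))
  -- variables: the tuple `x̄` sits at the positions `0 + i`
  let c0 : Fin n → Fin (0 + n) := Fin.natAdd 0
  let σ0 : Fml L (0 + n) := .conj (fun i => (e i).1)
    (fun i => .qf (Formula.relabel (Fin.append (fun j => Fin.castAdd (e i).1 (c0 j))
      (fun j => Fin.natAdd (0 + n) j)) (e i).2.1) ((e i).2.2.1.relabel _))
  let σ : Fml L 0 := .disj (fun _ => n) (fun _ => σ0)
  -- the variable `y` sits at the position `0 + n`
  let c1 : Fin n → Fin (0 + (n + 1)) := fun j => Fin.natAdd 0 (Fin.castSucc j)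
  let cy : Fin (0 + (n + 1)) := Fin.natAdd 0 (Fin.last n)
  let kk : T ⊕ L.Term (Fin n) → ℕ := fun s => Sum.elim (fun t => t.1) (fun _ => 0) s
  let body : (s : T ⊕ L.Term (Fin n)) → Fml L (0 + (n + 1) + kk s) := fun s =>
    match s with
    | Sum.inl t => .qf (Formula.relabel (Fin.append (fun j => Fin.castAdd t.1 (c1 j))
        (fun j => Fin.natAdd (0 + (n + 1)) j)) t.2.1.not) (t.2.2.1.not.relabel _)
    | Sum.inr t => .qf (Term.equal (Term.var (Fin.castAdd 0 cy))
        (Term.relabel (fun j => Fin.castAdd 0 (c1 j)) t)) (BoundedFormula.IsAtomic.equal _ _).isQF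
  let π0 : Fml L (0 + (n + 1)) := .disj (fun i => kk (g i)) (fun i => body (g i))
  let π : Fml L 0 := .conj (fun _ => n + 1) (fun _ => π0)
  -- meaning of `σ` and `π`
  have hσ : ∀ (B : Type) [L.Structure B], Sat B σ ↔ ∃ x : Fin n → B, UnivLE (L := L) a x := by
    intro B _
    have h0 : ∀ x : Fin n → B, σ0.Realize (Fin.append (Fin.elim0 : Fin 0 → B) x) ↔
        UnivLE (L := L) a x := by
      intro x
      let P : T → Prop := fun t => ∀ w : Fin t.1 → B,
        Formula.Realize (Formula.relabel (Fin.append (fun j => Fin.castAdd t.1 (c0 j))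
            (fun j => Fin.natAdd (0 + n) j)) t.2.1)
            (Fin.append (Fin.append (Fin.elim0 : Fin 0 → B) x) w)
      have hP : ∀ t, P t ↔ ∀ w : Fin t.1 → B, Formula.Realize t.2.1 (Fin.append x w) := by
        intro t
        refine forall_congr' fun w => ?_
        rw [Formula.realize_relabel, append_comp]
        have : (Fin.append (Fin.elim0 : Fin 0 → B) x) ∘ c0 = x := by
          funext j
          exact Fin.append_right _ _ j
        rw [this]
      change (∀ i, P (e i)) ↔ _
      rw [← he.forall (p := P)]
      simp only [hP]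
      constructor
      · intro h k ψ hψ hA w
        exact h ⟨k, ⟨ψ, hψ, hA⟩⟩ w
      · intro h t w
        exact h _ _ t.2.2.1 t.2.2.2 w
    change (∃ _ : ℕ, ∃ x : Fin n → B, σ0.Realize (Fin.append Fin.elim0 x)) ↔ _
    simp only [h0]
    exact ⟨fun ⟨_, h⟩ => h, fun h => ⟨0, h⟩⟩
  have hπ : ∀ (B : Type) [L.Structure B], Sat B π ↔
      ∀ x : Fin n → B, UnivLE (L := L) a x → ∀ y, ∃ t : L.Term (Fin n), t.realize x = y := by
    intro B _
    have h0 : ∀ v : Fin (n + 1) → B, π0.Realize (Fin.append (Fin.elim0 : Fin 0 → B) v) ↔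
        (UnivLE (L := L) a (fun j => v (Fin.castSucc j)) →
          ∃ t : L.Term (Fin n), t.realize (fun j => v (Fin.castSucc j)) = v (Fin.last n)) := by
      intro v
      let P : T ⊕ L.Term (Fin n) → Prop := fun s =>
        ∃ w : Fin (kk s) → B, (body s).Realize
          (Fin.append (Fin.append (Fin.elim0 : Fin 0 → B) v) w)
      have hv : (Fin.append (Fin.elim0 : Fin 0 → B) v) ∘ c1 = fun j => v (Fin.castSucc j) := by
        funext j
        exact Fin.append_right _ _ (Fin.castSucc j)
      have hP1 : ∀ t : T, P (Sum.inl t) ↔ ∃ w : Fin t.1 → B,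
            ¬ Formula.Realize t.2.1 (Fin.append (fun j => v (Fin.castSucc j)) w) := by
        intro t
        have key : ∀ w : Fin t.1 → B, Formula.Realize
            (Formula.relabel (Fin.append (fun j => Fin.castAdd t.1 (c1 j))
              (fun j => Fin.natAdd (0 + (n + 1)) j)) t.2.1.not)
            (Fin.append (Fin.append (Fin.elim0 : Fin 0 → B) v) w) ↔
            ¬ Formula.Realize t.2.1 (Fin.append (fun j => v (Fin.castSucc j)) w) := by
          intro w
          rw [Formula.realize_relabel, Formula.realize_not, append_comp, hv]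
        exact exists_congr key
      have hP2 : ∀ t : L.Term (Fin n), P (Sum.inr t) ↔
          v (Fin.last n) = t.realize (fun j => v (Fin.castSucc j)) := by
        intro t
        have h1 : ∀ w : Fin 0 → B,
            (Fin.append (Fin.append (Fin.elim0 : Fin 0 → B) v) w) (Fin.castAdd 0 cy) =
            v (Fin.last n) := by
          intro w
          exact (Fin.append_left _ _ _).trans (Fin.append_right _ _ (Fin.last n))
        have h2 : ∀ w : Fin 0 → B,
            ((Fin.append (Fin.append (Fin.elim0 : Fin 0 → B) v) w) ∘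
              fun j => Fin.castAdd 0 (c1 j)) = fun j => v (Fin.castSucc j) := by
          intro w
          funext j
          exact (Fin.append_left _ _ _).trans (Fin.append_right _ _ (Fin.castSucc j))
        change (∃ w : Fin 0 → B, Formula.Realize _ _) ↔ _
        have h3 : ∀ w : Fin 0 → B, Formula.Realize (Term.equal (Term.var (Fin.castAdd 0 cy))
            (Term.relabel (fun j => Fin.castAdd 0 (c1 j)) t))
            (Fin.append (Fin.append (Fin.elim0 : Fin 0 → B) v) w) ↔
            v (Fin.last n) = t.realize (fun j => v (Fin.castSucc j)) := by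
          intro w
          rw [Formula.realize_equal, Term.realize_var, Term.realize_relabel, h1, h2]
        exact ⟨fun ⟨w, hw⟩ => (h3 w).1 hw, fun h => ⟨Fin.elim0, (h3 _).2 h⟩⟩
      change (∃ i, P (g i)) ↔ _
      rw [← hg.exists (p := P), Sum.exists]
      simp only [hP1, hP2]
      constructor
      · rintro (⟨t, w, hw⟩ | ⟨t, ht⟩) hU
        · exact absurd (hU _ _ t.2.2.1 t.2.2.2 w) hw
        · exact ⟨t, ht.symm⟩
      · intro h
        by_cases hU : UnivLE (L := L) a (fun j => v (Fin.castSucc j))
        · obtain ⟨t, ht⟩ := h hU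
          exact Or.inr ⟨t, ht.symm⟩
        · unfold UnivLE at hU
          push Not at hU
          obtain ⟨k, ψ, hψ, hA, w, hw⟩ := hU
          exact Or.inl ⟨⟨k, ⟨ψ, hψ, hA⟩⟩, w, hw⟩
    change (∀ _ : ℕ, ∀ v : Fin (n + 1) → B, π0.Realize (Fin.append Fin.elim0 v)) ↔ _
    simp only [h0]
    constructor
    · intro h x hx y
      have := h 0 (Fin.snoc x y)
      simp only [Fin.snoc_castSucc, Fin.snoc_last] at this
      exact this hx
    · intro h _ v hv
      exact h _ hv _
  refine ⟨σ, π, ?_, ?_, ?_⟩
  · -- `σ` is `Σ_2`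
    change ∀ i : ℕ, ∃ j < 2, σ0.Lv false j
    intro _
    refine ⟨1, by norm_num, ?_⟩
    change ∀ i : ℕ, ∃ j < 1, Fml.Lv true _ j
    intro i
    exact ⟨0, by norm_num, trivial⟩
  · change ∀ i : ℕ, ∃ j < 2, π0.Lv true j
    intro _
    refine ⟨1, by norm_num, ?_⟩
    change ∀ i : ℕ, ∃ j < 1, (body (g i)).Lv false j
    intro i
    refine ⟨0, by norm_num, ?_⟩
    cases g i <;> trivial
  · intro B _ _
    rw [hσ B, hπ B]
    constructor
    · rintro ⟨⟨x, hx⟩, h2⟩
      exact nonempty_equiv_of_qf hx.qf ha (h2 x hx)
    · rintro ⟨f⟩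
      have hf : ∀ (m : ℕ) (ψ : L.Formula (Fin m)) (v : Fin m → A),
          ψ.Realize (f ∘ v) ↔ ψ.Realize v := by
        intro m ψ v
        exact StrongHomClass.realize_formula f ψ
      have happ : ∀ (k : ℕ) (x : Fin n → A) (w : Fin k → A),
          Fin.append (f ∘ x) (f ∘ w) = f ∘ Fin.append x w := by
        intro k x w
        funext i
        refine Fin.addCases (fun j => ?_) (fun j => ?_) i
        · simp [Fin.append_left]
        · simp [Fin.append_right]
      have hw : ∀ (k : ℕ) (w : Fin k → B), w = f ∘ (f.symm ∘ w) := by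
        intro k w
        funext i
        simp
      have htrans : ∀ x : Fin n → A, UnivLE (L := L) a (f ∘ x) ↔ UnivLE (L := L) a x := by
        intro x
        constructor
        · intro h k ψ hψ hA w
          have := h k ψ hψ hA (f ∘ w)
          rw [happ, hf] at this
          exact this
        · intro h k ψ hψ hA w
          rw [hw k w, happ, hf]
          exact h k ψ hψ hA _
      refine ⟨⟨f ∘ a, ?_⟩, ?_⟩
      · rw [htrans]
        intro k ψ _ hA w
        exact hA w
      · intro x hx y
        rw [hw n x, htrans] at hx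
        obtain ⟨t, ht⟩ := H _ hx (f.symm y)
        refine ⟨t, ?_⟩
        rw [hw n x]
        have : t.realize (f ∘ (f.symm ∘ x)) = f (t.realize (f.symm ∘ x)) :=
          HomClass.realize_term f
        rw [this, ht]
        simp

end Positive

end Pool.Agent.TH750.SC
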